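import Pool.Agent.Helper26.TK.Space

/-!
Packet N: compactness.
-/

namespace Pool.Agent.Helper26.TK

open Set Filter Topology

theorem stmtN : StmtN := by
  intro f hf x hx hinf
  obtain ⟨a, ha, hadm⟩ := hinf
  -- choose the witnesses
  have h1 : ∀ k : ℕ, ∃ y : ℕ → ℕ, a 0 < k → (∀ i < k, y i ≤ a i) ∧
      ∀ i, i + 1 < k → f y i = x i := by
    intro k
    by_cases hk : a 0 < k
    · rcases hadm k with h | ⟨y, hy⟩
      · exact absurd h (by omega)
      · exact ⟨y, fun _ => hy⟩
    · exact ⟨0, fun h => absurd h hk⟩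
  choose y hy using h1
  obtain ⟨U, hU⟩ := Ultrafilter.exists_le (atTop : Filter ℕ)
  -- eventual values
  have h2 : ∀ i : ℕ, ∃ z : ℕ, ∀ᶠ k in (U : Filter ℕ), y k i = z := by
    intro i
    have hev : ∀ᶠ k in (U : Filter ℕ), y k i ∈ (Finset.range (a i + 1) : Set ℕ) := by
      have : ∀ᶠ k in (atTop : Filter ℕ), y k i ∈ (Finset.range (a i + 1) : Set ℕ) := by
        filter_upwards [eventually_gt_atTop (max (a 0) i)] with k hk
        have := (hy k (lt_of_le_of_lt (le_max_left _ _) hk)).1 i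
          (lt_of_le_of_lt (le_max_right _ _) hk)
        simp only [Finset.coe_range, mem_Iio]
        omega
      exact hU this
    have hfin : (Finset.range (a i + 1) : Set ℕ).Finite := Finset.finite_toSet _
    have hm : ∀ᶠ k in (U : Filter ℕ), ∃ z ∈ (Finset.range (a i + 1) : Set ℕ), y k i = z := by
      filter_upwards [hev] with k hk
      exact ⟨_, hk, rfl⟩
    obtain ⟨z, _, hz⟩ := (Ultrafilter.eventually_exists_mem_iff hfin).1 hm
    exact ⟨z, hz⟩
  choose z hz using h2
  have h3 : Tendsto y (U : Filter ℕ) (𝓝 z) := by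
    rw [tendsto_pi_nhds]
    intro i
    exact tendsto_nhds_of_eventually_eq (hz i) 
  have h4 : Tendsto (fun k => f (y k)) (U : Filter ℕ) (𝓝 (f z)) := (hf.tendsto z).comp h3
  apply hx
  refine ⟨z, ?_⟩
  funext i
  have h5 : Tendsto (fun k => f (y k) i) (U : Filter ℕ) (𝓝 (f z i)) := (tendsto_pi_nhds.1 h4) i
  have h6 : ∀ᶠ k in (U : Filter ℕ), f (y k) i = f z i := by
    have : ({f z i} : Set Bool) ∈ 𝓝 (f z i) := by simp
    exact h5 this
  have h7 : ∀ᶠ k in (U : Filter ℕ), f (y k) i = x i := by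
    have : ∀ᶠ k in (atTop : Filter ℕ), f (y k) i = x i := by
      filter_upwards [eventually_gt_atTop (max (a 0) (i + 1))] with k hk
      exact (hy k (lt_of_le_of_lt (le_max_left _ _) hk)).2 i
        (lt_of_le_of_lt (le_max_right _ _) hk)
    exact hU this
  obtain ⟨k, hk1, hk2⟩ := (h6.and h7).exists
  rw [← hk1, hk2]

end Pool.Agent.Helper26.TK
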