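import Pool.Agent.Helper26.TK.Space

/-!
Packet P: coordinate projections.
-/

namespace Pool.Agent.Helper26.TK

open Set Filter Topology

section

variable {Φ : Set (Node →₀ ℝ)} {X : Type} [NormedAddCommGroup X] [NormedSpace ℝ X]

theorem NS.eq_zero (H : NS Φ X) {v : X} (h : ∀ t, H.co t v = 0) : v = 0 := by
  have := H.norm_le v 0 le_rfl (fun φ _ => by simp [h])
  exact norm_le_zero_iff.1 this

theorem NS.ext (H : NS Φ X) {v w : X} (h : ∀ t, H.co t v = H.co t w) : v = w := by
  rw [← sub_eq_zero]
  exact H.eq_zero (fun t => by rw [map_sub, h, sub_self])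

theorem NS.norm_le_norm (hΦ : Good Φ) (H : NS Φ X) {v w : X}
    (h : ∀ t, H.co t w = 0 ∨ H.co t w = H.co t v) : ‖w‖ ≤ ‖v‖ := by
  classical
  refine H.norm_le w _ (norm_nonneg _) (fun φ hφ => ?_)
  let χ : Node →₀ ℝ := φ.filter (fun t => H.co t w ≠ 0)
  have hpos : ∀ t, H.co t w ≠ 0 → χ t = φ t := fun t ht =>
    Finsupp.filter_apply_pos (fun t => H.co t w ≠ 0) φ ht
  have hneg : ∀ t, ¬ (H.co t w ≠ 0) → χ t = 0 := fun t ht =>
    Finsupp.filter_apply_neg (fun t => H.co t w ≠ 0) φ ht
  have hχ : χ ∈ Φ := by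
    refine hΦ.dom φ hφ χ (fun t => ?_)
    by_cases ht : H.co t w ≠ 0
    · right
      rw [hpos t ht]
    · left
      exact hneg t ht
  have h1 : ∑ t ∈ φ.support, φ t * H.co t w = ∑ t ∈ χ.support, χ t * H.co t v := by
    have hs : χ.support = φ.support.filter (fun t => H.co t w ≠ 0) := Finsupp.support_filter _ _
    rw [hs, Finset.sum_filter]
    refine Finset.sum_congr rfl (fun t _ => ?_)
    split_ifs with ht
    · rw [hpos t ht]
      rcases h t with h' | h'
      · exact absurd h' ht
      · rw [h']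
    · rw [not_not.1 ht, mul_zero]
  rw [h1]
  exact H.le_norm χ hχ v

open Classical in
theorem NS.co_sum (H : NS Φ X) (S : Finset Node) (z : Node → ℝ) (t : Node) :
    H.co t (∑ s ∈ S, z s • H.e s) = if t ∈ S then z t else 0 := by
  rw [map_sum]
  simp only [map_smul, H.co_e, smul_eq_mul, mul_ite, mul_one, mul_zero]
  rw [Finset.sum_ite_eq]

end

theorem stmtP : StmtP := by
  classical
  intro Φ hΦ X _ _ _ H R
  have hex : ∀ v : X, ∃ w : X, ∀ t, H.co t w = if t ∈ R then H.co t v else 0 := by
    intro v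
    have h1 : ∀ n : ℕ, ∃ S : Finset Node, ‖v - ∑ t ∈ S, H.co t v • H.e t‖ ≤ (1 / 2 : ℝ) ^ n :=
      fun n => H.dense v _ (by positivity)
    choose S hS using h1
    let u : ℕ → X := fun n => ∑ t ∈ S n, H.co t v • H.e t
    let w : ℕ → X := fun n => ∑ t ∈ (S n).filter (· ∈ R), H.co t v • H.e t
    have hwu : ∀ n m, ‖w n - w m‖ ≤ ‖u n - u m‖ := by
      intro n m
      refine NS.norm_le_norm hΦ H (fun t => ?_)
      rw [map_sub, map_sub, NS.co_sum, NS.co_sum, NS.co_sum, NS.co_sum]
      simp only [Finset.mem_filter]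
      by_cases ht : t ∈ R
      · right
        simp [ht]
      · left
        simp [ht]
    have hu : Tendsto u atTop (𝓝 v) := by
      rw [tendsto_iff_norm_sub_tendsto_zero]
      have hp : Tendsto (fun n : ℕ => (1 / 2 : ℝ) ^ n) atTop (𝓝 0) :=
        tendsto_pow_atTop_nhds_zero_of_lt_one (by norm_num) (by norm_num)
      refine squeeze_zero (fun _ => norm_nonneg _) (fun n => ?_) hp
      rw [norm_sub_rev]
      exact hS n
    have hcu : CauchySeq u := hu.cauchySeq
    have hcw : CauchySeq w := by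
      rw [Metric.cauchySeq_iff] at hcu ⊢
      intro ε hε
      obtain ⟨N, hN⟩ := hcu ε hε
      refine ⟨N, fun m hm n hn => ?_⟩
      have := hN m hm n hn
      rw [dist_eq_norm] at this ⊢
      exact lt_of_le_of_lt (hwu m n) this
    obtain ⟨w', hw'⟩ := cauchySeq_tendsto_of_complete hcw
    refine ⟨w', fun t => ?_⟩
    have h2 : Tendsto (fun n => H.co t (w n)) atTop (𝓝 (H.co t w')) :=
      ((H.co t).continuous.tendsto w').comp hw'
    have h3 : Tendsto (fun n => H.co t (u n)) atTop (𝓝 (H.co t v)) :=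
      ((H.co t).continuous.tendsto v).comp hu
    have h4 : ∀ n, H.co t (w n) = if t ∈ R then H.co t (u n) else 0 := by
      intro n
      rw [NS.co_sum, NS.co_sum]
      by_cases ht : t ∈ R
      · simp [ht]
      · simp [ht]
    by_cases ht : t ∈ R
    · simp only [ht, if_true] at h4 ⊢
      have : (fun n => H.co t (w n)) = fun n => H.co t (u n) := funext h4
      rw [this] at h2
      exact tendsto_nhds_unique h2 h3
    · simp only [ht, if_false] at h4 ⊢
      have : (fun n => H.co t (w n)) = fun _ => 0 := funext h4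
      rw [this] at h2
      exact tendsto_nhds_unique h2 tendsto_const_nhds
  choose P hP using hex
  have hadd : ∀ v w, P (v + w) = P v + P w := by
    intro v w
    refine H.ext (fun t => ?_)
    rw [map_add, hP, hP, hP, map_add]
    split_ifs <;> simp
  have hsmul : ∀ (c : ℝ) v, P (c • v) = c • P v := by
    intro c v
    refine H.ext (fun t => ?_)
    rw [map_smul, hP, hP, map_smul]
    split_ifs <;> simp
  have hnorm : ∀ v, ‖P v‖ ≤ ‖v‖ := by
    intro v
    refine NS.norm_le_norm hΦ H (fun t => ?_)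
    rw [hP]
    split_ifs
    · right; rfl
    · left; rfl
  let L : X →ₗ[ℝ] X := { toFun := P, map_add' := hadd, map_smul' := hsmul }
  refine ⟨L.mkContinuous 1 (fun v => by rw [one_mul]; exact hnorm v), fun v => hnorm v, ?_⟩
  intro t v
  exact hP v t

end Pool.Agent.Helper26.TK
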