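import Pool.Agent.Helper26.TK.Defs

/-!
Banach spaces with an unconditional family normed by a set of finitely supported functions,
weakly compact sets and Tukey reductions; exact statements (as Props) of the lemmas.
-/

namespace Pool.Agent.Helper26.TK

open Set Filter Topology MeasureTheory

/-- Norming sets: contain the unit vectors, bounded by one, and closed under passing to
functions whose modulus is at each node either zero or the modulus of the given function. -/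
structure Good (Φ : Set (Node →₀ ℝ)) : Prop where
  single : ∀ t : Node, Finsupp.single t (1 : ℝ) ∈ Φ
  le_one : ∀ φ ∈ Φ, ∀ t, |φ t| ≤ 1
  dom : ∀ φ ∈ Φ, ∀ χ : Node →₀ ℝ, (∀ t, χ t = 0 ∨ |χ t| = |φ t|) → χ ∈ Φ

/-- `X` is a Banach space spanned by the vectors `e t`, with coordinates `co t`, whose norm is
the supremum of `|∑ φ t * co t v|` over the norming set `Φ`. -/
structure NS (Φ : Set (Node →₀ ℝ)) (X : Type) [NormedAddCommGroup X] [NormedSpace ℝ X] where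
  e : Node → X
  co : Node → (X →L[ℝ] ℝ)
  co_e : ∀ s t : Node, co s (e t) = if s = t then 1 else 0
  le_norm : ∀ φ ∈ Φ, ∀ v : X, |∑ t ∈ φ.support, φ t * co t v| ≤ ‖v‖
  norm_le : ∀ (v : X) (r : ℝ), 0 ≤ r →
    (∀ φ ∈ Φ, |∑ t ∈ φ.support, φ t * co t v| ≤ r) → ‖v‖ ≤ r
  dense : ∀ (v : X) (ε : ℝ), 0 < ε → ∃ S : Finset Node, ‖v - ∑ t ∈ S, co t v • e t‖ ≤ ε

/-- The nodes of level less than `m` and the nodes on the branches of `F`. -/
def RR (F : Finset (ℕ → Bool)) (m : ℕ) : Set Node :=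
  {t | t.length < m ∨ ∃ x ∈ F, t = node x t.length}

/-- The part of the unit ball supported by `RR F m`. -/
def KK {Φ : Set (Node →₀ ℝ)} {X : Type} [NormedAddCommGroup X] [NormedSpace ℝ X]
    (H : NS Φ X) (F : Finset (ℕ → Bool)) (m : ℕ) : Set X :=
  {v | ‖v‖ ≤ 1 ∧ ∀ t, t ∉ RR F m → H.co t v = 0}

/-- Packet G: existence of the space. -/
def StmtG : Prop :=
  ∀ Φ : Set (Node →₀ ℝ), Good Φ →
    ∃ (X : Type) (_ : NormedAddCommGroup X) (_ : NormedSpace ℝ X),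
      CompleteSpace X ∧ TopologicalSpace.SeparableSpace X ∧ Nonempty (NS Φ X)

open Classical in
/-- Packet P: coordinate projections. -/
def StmtP : Prop :=
  ∀ (Φ : Set (Node →₀ ℝ)), Good Φ →
    ∀ (X : Type) [NormedAddCommGroup X] [NormedSpace ℝ X] [CompleteSpace X] (H : NS Φ X)
      (R : Set Node), ∃ P : X →L[ℝ] X, (∀ v, ‖P v‖ ≤ ‖v‖) ∧
        ∀ t v, H.co t (P v) = if t ∈ R then H.co t v else 0

/-- Packet N: no infinite admissible sequence on a branch outside `range f`. -/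
def StmtN : Prop :=
  ∀ f : (ℕ → ℕ) → (ℕ → Bool), Continuous f → ∀ x, x ∉ Set.range f →
    ¬ ∃ a : ℕ → ℕ, StrictMono a ∧ ∀ k, Adm f x k a

/-- Packet D: closure properties of the norming set `Phi f`. -/
def StmtD : Prop :=
  ∀ f : (ℕ → ℕ) → (ℕ → Bool),
    Good (Phi f) ∧
    (∀ (x : ℕ → Bool) (ψ : ℕ → ℝ), Dx f x ψ → ∃ φ ∈ Phi f, (∀ n, φ (node x n) = ψ n) ∧
      ∀ t, φ t ≠ 0 → t = node x t.length) ∧
    (∀ (k : ℕ) (φ : ℕ → Node →₀ ℝ), (∀ i < k, φ i ∈ Phi f) →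
      (∀ i < k, ∀ j < k, i ≠ j → ∀ s t : Node, φ i s ≠ 0 → φ j t ≠ 0 → ¬ s <+: t) →
      ∑ i ∈ Finset.range k, φ i ∈ Phi f) ∧
    (∀ (g m : ℕ → ℕ) (k : ℕ) (φ : ℕ → Node →₀ ℝ), StrictMono m → (∀ i, g i ≤ m i) →
      (∀ i, i < m i) → (∀ i < k, φ i ∈ Phi f) →
      (∀ i < k, ∀ t : Node, φ i t ≠ 0 → m i ≤ t.length ∧ t.length < m (i + 1) ∧
        ∃ y : ℕ → ℕ, (∀ j ≤ i, y j ≤ g j) ∧ ∀ j ≤ i, f y j = ext t j) →
      (1 / 2 : ℝ) • ∑ i ∈ Finset.range k, φ i ∈ Phi f)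

/-- Packet SH: the branches outside `range f` are uniformly shrinking. -/
def StmtSH : Prop :=
  ∀ f : (ℕ → ℕ) → (ℕ → Bool), Continuous f → ∀ x, x ∉ Set.range f →
    ∀ (X : Type) [NormedAddCommGroup X] [NormedSpace ℝ X] [CompleteSpace X]
      (H : NS (Phi f) X) (ψ : X →L[ℝ] ℝ) (η : ℝ), 0 < η →
      ∃ N : ℕ, ∀ v : X, ‖v‖ ≤ 1 →
        (∀ t : Node, H.co t v ≠ 0 → N ≤ t.length ∧ t = node x t.length) → |ψ v| ≤ η

/-- Packet BC: the branches are boundedly complete. -/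
def StmtBC : Prop :=
  ∀ (f : (ℕ → ℕ) → (ℕ → Bool)) (x : ℕ → Bool)
    (X : Type) [NormedAddCommGroup X] [NormedSpace ℝ X] [CompleteSpace X]
    (H : NS (Phi f) X) (z : ℕ → ℝ),
    (∀ N : ℕ, ‖∑ n ∈ Finset.range N, z n • H.e (node x n)‖ ≤ 1) →
    ∃ v : X, Tendsto (fun N : ℕ => ∑ n ∈ Finset.range N, z n • H.e (node x n)) atTop (𝓝 v)

/-- Packet W: the sets `KK H F m` are weakly compact. -/
def StmtW : Prop :=
  ∀ f : (ℕ → ℕ) → (ℕ → Bool), Continuous f →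
    ∀ (X : Type) [NormedAddCommGroup X] [NormedSpace ℝ X] [CompleteSpace X]
      (H : NS (Phi f) X) (F : Finset (ℕ → Bool)), (∀ x ∈ F, x ∉ Set.range f) → ∀ m : ℕ,
      IsCompact ((toWeakSpace ℝ X) '' KK H F m)

/-- Packet A: absorption of weakly compact sets. -/
def StmtA : Prop :=
  ∀ f : (ℕ → ℕ) → (ℕ → Bool), Continuous f →
    (∀ K : Set (ℕ → Bool), IsClosed K → K ⊆ (Set.range f)ᶜ → K.Countable) →
    ∀ (X : Type) [NormedAddCommGroup X] [NormedSpace ℝ X] [CompleteSpace X]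
      (H : NS (Phi f) X) (L : Set X), L ⊆ Metric.closedBall 0 1 →
      IsCompact ((toWeakSpace ℝ X) '' L) → ∀ ε : ℝ, 0 < ε →
      ∃ (F : Finset (ℕ → Bool)) (m : ℕ), (∀ x ∈ F, x ∉ Set.range f) ∧
        ∀ v ∈ L, ∃ w ∈ KK H F m, ‖v - w‖ ≤ ε ∧ ∀ t, t ∉ RR F m → |H.co t v| ≤ ε

/-! ### Tukey reductions -/

/-- Tukey functions between sets with binary relations. -/
def IsTukey {U V : Type} (R : U → U → Prop) (S : V → V → Prop) (h : U → V) : Prop :=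
  ∀ v₀ : V, ∃ u₀ : U, ∀ u : U, S (h u) v₀ → R u u₀

/-- The weakly compact subsets of the closed unit ball. -/
def WKB (X : Type) [NormedAddCommGroup X] [NormedSpace ℝ X] : Type :=
  {K : Set X // K ⊆ Metric.closedBall 0 1 ∧ IsCompact ((toWeakSpace ℝ X) '' K)}

/-- The relation `L ⊆ K + ε B_X`. -/
def leEps {X : Type} [NormedAddCommGroup X] [NormedSpace ℝ X] (ε : ℝ) (L K : WKB X) : Prop :=
  ∀ v ∈ L.1, ∃ w ∈ K.1, ‖v - w‖ ≤ ε

/-- `AK(B_X) ⪯ Q`. -/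
def AKBelow (X : Type) [NormedAddCommGroup X] [NormedSpace ℝ X] (Q : Type) [LE Q] : Prop :=
  ∀ ε : ℝ, 0 < ε → ∃ h : WKB X → Q, IsTukey (leEps ε) (fun a b : Q => a ≤ b) h

/-- `Q ⪯ AK(B_X)`. -/
def AKAbove (X : Type) [NormedAddCommGroup X] [NormedSpace ℝ X] (Q : Type) [LE Q] : Prop :=
  ∃ δ : ℝ, 0 < δ ∧ ∃ h : Q → WKB X, IsTukey (fun a b : Q => a ≤ b) (leEps δ) h

/-- Strongly weakly compactly generated spaces. -/
def SWCG (X : Type) [NormedAddCommGroup X] [NormedSpace ℝ X] : Prop :=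
  ∃ K : Set X, IsCompact ((toWeakSpace ℝ X) '' K) ∧ ∀ ε : ℝ, 0 < ε → ∀ L : Set X,
    IsCompact ((toWeakSpace ℝ X) '' L) → ∃ n : ℕ, ∀ v ∈ L, ∃ w ∈ K, ‖v - (n : ℝ) • w‖ ≤ ε

end Pool.Agent.Helper26.TK
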