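import Pool.Agent.Helper26.TK.Main
import Pool.Agent.Helper26.TK.PfN
import Pool.Agent.Helper26.TK.PfP
import Pool.Agent.Helper24.TK.BC
import Pool.Agent.Helper28.TK.S
import Pool.Agent.Helper36.TK.D
import Pool.Agent.Helper50.TK.G
import Pool.Agent.Helper50.TK.Q
import Pool.Agent.Helper68.TK.Mass
import Pool.Agent.Helper72.TK.SH
import Pool.Agent.Helper77.TK.A
import Pool.Agent.Helper79.TK.W

/-!
The theorem with all packets inserted.
-/

namespace Pool.Agent.Helper26.TK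

open Set MeasureTheory Cardinal

theorem stmtW' : StmtW :=
  Pool.Agent.Helper79.TK.stmtW stmtP Pool.Agent.Helper36.TK.stmtD
    (Pool.Agent.Helper72.TK.stmtSH Pool.Agent.Helper50.TK.stmtQ stmtP stmtN
      Pool.Agent.Helper36.TK.stmtD) (stmtBC Pool.Agent.Helper36.TK.stmtD)

theorem stmtA' : StmtA :=
  Pool.Agent.Helper77.TK.stmtA Pool.Agent.Helper68.TK.stmtM Pool.Agent.Helper28.TK.stmtS stmtP
    Pool.Agent.Helper36.TK.stmtD

theorem main' :
    (∀ C : Set (ℕ → Bool), AnalyticSet Cᶜ →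
      (∀ K : Set (ℕ → Bool), IsClosed K → K ⊆ C → K.Countable) → Realizes C) ∧
    ((∀ (X : Type) [NormedAddCommGroup X] [NormedSpace ℝ X] [CompleteSpace X]
        [TopologicalSpace.SeparableSpace X], UncBasis X → AKBelow X ℕ ∨ AKAbove X (ℕ → ℕ)) →
      ∀ C : Set (ℕ → Bool), AnalyticSet Cᶜ → #C < Order.cof (ℕ → ℕ) → C.Countable) :=
  main Pool.Agent.Helper50.TK.stmtG Pool.Agent.Helper36.TK.stmtD stmtW' stmtA'

end Pool.Agent.Helper26.TK
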