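import Mathlib

/-!
Definitions for the tree space of MP_c88f67_an (Tukey dichotomy for weakly compact sets).
-/

namespace Pool.Agent.Helper26.TK

open Set Filter Topology MeasureTheory

/-- Nodes of the binary tree. -/
abbrev Node := List Bool

/-- The node of level `n` on the branch `x`. -/
def node (x : ℕ → Bool) (n : ℕ) : Node := (List.range n).map x

/-- An extension of a node to a branch. -/
def ext (t : Node) : ℕ → Bool := fun i => t.getD i false

/-- Admissible finite increasing sequences `a 0 < ... < a (k-1)` on the branch `x`,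
relative to a parametrisation `f` of a set of branches. -/
def Adm (f : (ℕ → ℕ) → (ℕ → Bool)) (x : ℕ → Bool) (k : ℕ) (a : ℕ → ℕ) : Prop :=
  k ≤ a 0 ∨ ∃ y : ℕ → ℕ, (∀ i < k, y i ≤ a i) ∧ ∀ i, i + 1 < k → f y i = x i

/-- Tsirelson type norming functionals on the branch `x`. -/
inductive Dx (f : (ℕ → ℕ) → (ℕ → Bool)) (x : ℕ → Bool) : (ℕ → ℝ) → Prop
  | zero : Dx f x (fun _ => 0)
  | single (n : ℕ) : Dx f x (fun m => if m = n then 1 else 0)
  | step (k : ℕ) (a : ℕ → ℕ) (ψ : ℕ → ℕ → ℝ) (ha : StrictMono a) (hk : Adm f x k a)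
      (hψ : ∀ i < k, Dx f x (ψ i))
      (hs : ∀ i < k, ∀ n, ψ i n ≠ 0 → a i ≤ n ∧ (i + 1 < k → n < a (i + 1))) :
      Dx f x (fun n => (1 / 2) * ∑ i ∈ Finset.range k, ψ i n)

/-- The norming set on the tree: all finitely supported functions whose absolute value has
all its traces on branches in `Dx`. -/
def Phi (f : (ℕ → ℕ) → (ℕ → Bool)) : Set (Node →₀ ℝ) :=
  {φ | ∀ x, Dx f x (fun n => |φ (node x n)|)}

end Pool.Agent.Helper26.TK
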