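import Pool.Agent.Helper26.TK.Space

/-!
Tukey reductions for the tree space, from the absorption property.
-/

namespace Pool.Agent.Helper26.TK

open Set Filter Topology MeasureTheory Cardinal

theorem length_node (x : ℕ → Bool) (n : ℕ) : (node x n).length = n := by simp [node]

theorem node_ne {x x' : ℕ → Bool} {i n : ℕ} (hi : i < n) (h : x i ≠ x' i) :
    node x n ≠ node x' n := by
  intro he
  apply h
  have h1 : (node x n)[i]? = (node x' n)[i]? := by rw [he]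
  simpa [node, hi] using h1

theorem RR_mono {F F' : Finset (ℕ → Bool)} {m m' : ℕ} (h : F ⊆ F') (hm : m ≤ m') :
    RR F m ⊆ RR F' m' := by
  intro t ht
  rcases ht with ht | ⟨x, hx, ht⟩
  · exact Or.inl (by omega)
  · exact Or.inr ⟨x, h hx, ht⟩

section

variable {Φ : Set (Node →₀ ℝ)} {X : Type} [NormedAddCommGroup X] [NormedSpace ℝ X]

theorem KK_mono (H : NS Φ X) {F F' : Finset (ℕ → Bool)} {m m' : ℕ} (h : F ⊆ F') (hm : m ≤ m') :
    KK H F m ⊆ KK H F' m' := by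
  intro v hv
  exact ⟨hv.1, fun t ht => hv.2 t (fun ht' => ht (RR_mono h hm ht'))⟩

theorem co_le (hΦ : Good Φ) (H : NS Φ X) (t : Node) (v : X) : |H.co t v| ≤ ‖v‖ := by
  have h := H.le_norm _ (hΦ.single t) v
  simpa [Finsupp.support_single] using h

theorem norm_e (hΦ : Good Φ) (H : NS Φ X) (t : Node) : ‖H.e t‖ ≤ 1 := by
  refine H.norm_le _ 1 zero_le_one (fun φ hφ => ?_)
  have : ∑ s ∈ φ.support, φ s * H.co s (H.e t) = φ t := by
    simp only [H.co_e, mul_ite, mul_one, mul_zero]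
    rw [Finset.sum_ite_eq']
    split_ifs with h
    · rfl
    · exact (Finsupp.notMem_support_iff.1 h).symm
  rw [this]
  exact hΦ.le_one φ hφ t

theorem e_mem (hΦ : Good Φ) (H : NS Φ X) {F : Finset (ℕ → Bool)} {x : ℕ → Bool} (hx : x ∈ F)
    (n m : ℕ) : H.e (node x n) ∈ KK H F m := by
  refine ⟨norm_e hΦ H _, fun t ht => ?_⟩
  rw [H.co_e]
  split_ifs with h
  · exact absurd (Or.inr ⟨x, hx, by rw [h, length_node]⟩) ht
  · rfl

/-- A node far out on a branch which is not in `F₀` is not in `RR F₀ m₀`. -/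
theorem exists_node {F₀ : Finset (ℕ → Bool)} {x : ℕ → Bool} (hx : x ∉ F₀) (m₀ : ℕ) :
    ∃ n, node x n ∉ RR F₀ m₀ := by
  classical
  have h1 : ∀ x' : ℕ → Bool, ∃ i, x' ∈ F₀ → x i ≠ x' i := by
    intro x'
    by_cases h : x' ∈ F₀
    · have : x ≠ x' := fun he => hx (he ▸ h)
      obtain ⟨i, hi⟩ := Function.ne_iff.1 this
      exact ⟨i, fun _ => hi⟩
    · exact ⟨0, fun h' => absurd h' h⟩
  choose d hd using h1
  refine ⟨m₀ + 1 + ∑ x' ∈ F₀, d x', ?_⟩
  rintro (h | ⟨x', hx', h⟩)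
  · rw [length_node] at h; omega
  · rw [length_node] at h
    have h2 : d x' ≤ ∑ x' ∈ F₀, d x' := Finset.single_le_sum (f := d) (fun _ _ => Nat.zero_le _) hx'
    exact node_ne (i := d x') (by omega) (hd x' hx') h

/-- The set of branches `x` whose ball is `1/4`-absorbed by a set with small coordinates off
`RR F₀ m₀` is contained in `F₀`. -/
theorem mem_of_absorb (hΦ : Good Φ) (H : NS Φ X) {F F₀ : Finset (ℕ → Bool)} {m₀ : ℕ} {K : Set X}
    (hK : ∀ v ∈ K, ∀ t, t ∉ RR F₀ m₀ → |H.co t v| ≤ 1 / 4)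
    (hL : ∀ v ∈ KK H F 0, ∃ w ∈ K, ‖v - w‖ ≤ 1 / 4) : F ⊆ F₀ := by
  intro x hx
  by_contra hx0
  obtain ⟨n, hn⟩ := exists_node hx0 m₀
  obtain ⟨w, hw, hvw⟩ := hL _ (e_mem hΦ H hx n 0)
  have h1 := hK w hw _ hn
  have h2 := (co_le hΦ H (node x n) (H.e (node x n) - w)).trans hvw
  rw [map_sub, H.co_e, if_pos rfl] at h2
  have h3 := abs_le.1 h1
  have h4 := abs_le.1 h2
  linarith [h3.1, h3.2, h4.1, h4.2]

/-- Weakly compact sets are bounded. -/
theorem bounded_of_wcompact [CompleteSpace X] {K : Set X}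
    (hK : IsCompact ((toWeakSpace ℝ X) '' K)) : ∃ ρ : ℝ, 0 < ρ ∧ ∀ v ∈ K, ‖v‖ ≤ ρ := by
  have h : ∀ ψ : StrongDual ℝ X, ∃ C, ∀ v : K,
      ‖NormedSpace.inclusionInDoubleDual ℝ X v ψ‖ ≤ C := by
    intro ψ
    have hc : Continuous (fun w : WeakSpace ℝ X => ψ ((toWeakSpace ℝ X).symm w)) := by
      exact WeakBilin.eval_continuous (topDualPairing ℝ X).flip ψ
    have h1 : IsCompact ((fun w : WeakSpace ℝ X => ψ ((toWeakSpace ℝ X).symm w)) ''
      ((toWeakSpace ℝ X) '' K)) := hK.image hc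
    obtain ⟨C, hC⟩ := h1.isBounded.exists_norm_le
    refine ⟨C, fun v => ?_⟩
    have := hC (ψ v) ⟨toWeakSpace ℝ X v, ⟨v, v.2, rfl⟩, by simp⟩
    simpa using this
  obtain ⟨C, hC⟩ := banach_steinhaus h
  refine ⟨max C 1, lt_of_lt_of_le one_pos (le_max_right _ _), fun v hv => ?_⟩
  have h2 := hC ⟨v, hv⟩
  have h3 : ‖NormedSpace.inclusionInDoubleDual ℝ X v‖ = ‖v‖ :=
    (NormedSpace.inclusionInDoubleDualLi (𝕜 := ℝ) (E := X)).norm_map v
  rw [h3] at h2
  exact h2.trans (le_max_left _ _)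

end

/-- The properties of the tree space used for the Tukey reductions. -/
structure Tree (C : Set (ℕ → Bool)) {Φ : Set (Node →₀ ℝ)} {X : Type} [NormedAddCommGroup X]
    [NormedSpace ℝ X] (H : NS Φ X) : Prop where
  good : Good Φ
  wc : ∀ (F : Finset (ℕ → Bool)), (∀ x ∈ F, x ∈ C) → ∀ m : ℕ,
    IsCompact ((toWeakSpace ℝ X) '' KK H F m)
  absorb : ∀ L : Set X, L ⊆ Metric.closedBall 0 1 →
      IsCompact ((toWeakSpace ℝ X) '' L) → ∀ ε : ℝ, 0 < ε →
      ∃ (F : Finset (ℕ → Bool)) (m : ℕ), (∀ x ∈ F, x ∈ C) ∧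
        ∀ v ∈ L, ∃ w ∈ KK H F m, ‖v - w‖ ≤ ε ∧ ∀ t, t ∉ RR F m → |H.co t v| ≤ ε

section

variable {C : Set (ℕ → Bool)} {Φ : Set (Node →₀ ℝ)} {X : Type} [NormedAddCommGroup X]
    [NormedSpace ℝ X] {H : NS Φ X}

/-- The weakly compact set attached to a finite subset of `C` and a natural number. -/
def Tree.kk (T : Tree C H) (F : Finset C) (m : ℕ) : WKB X :=
  ⟨KK H (F.map (Function.Embedding.subtype _)) m, fun v hv => by
    simpa using hv.1, T.wc _ (fun x hx => by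
      obtain ⟨a, _, rfl⟩ := Finset.mem_map.1 hx
      exact a.2) m⟩

theorem Tree.kk_mono (T : Tree C H) {F F' : Finset C} {m m' : ℕ} (h : F ⊆ F') (hm : m ≤ m') :
    (T.kk F m).1 ⊆ (T.kk F' m').1 :=
  KK_mono H (Finset.map_subset_map.2 h) hm

theorem Tree.absorb' (T : Tree C H) (L : WKB X) (ε : ℝ) (hε : 0 < ε) :
    ∃ (F : Finset C) (m : ℕ), leEps ε L (T.kk F m) := by
  classical
  obtain ⟨F, m, hF, h⟩ := T.absorb L.1 L.2.1 L.2.2 ε hε
  refine ⟨F.subtype (· ∈ C), m, fun v hv => ?_⟩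
  obtain ⟨w, hw, hvw, _⟩ := h v hv
  refine ⟨w, ?_, hvw⟩
  have : (F.subtype (· ∈ C)).map (Function.Embedding.subtype _) = F := by
    ext x
    simp only [Finset.mem_map, Finset.mem_subtype, Function.Embedding.subtype_apply,
      Subtype.exists, exists_and_left, exists_prop, exists_eq_right_right]
    exact ⟨fun h => h.1, fun h => ⟨h, hF x h⟩⟩
  show w ∈ KK H ((F.subtype (· ∈ C)).map (Function.Embedding.subtype _)) m
  rw [this]
  exact hw

/-- A weakly compact set absorbs only the finite sets contained in a certain finite set. -/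
theorem Tree.finite_absorbed [CompleteSpace X] (T : Tree C H) (K : Set X)
    (hK : IsCompact ((toWeakSpace ℝ X) '' K)) :
    ∃ F₀ : Finset C, ∀ F : Finset C, (∀ v ∈ (T.kk F 0).1, ∃ w ∈ K, ‖v - w‖ ≤ 1 / 4) → F ⊆ F₀ := by
  classical
  obtain ⟨ρ, hρ, hb⟩ := bounded_of_wcompact hK
  -- rescale
  have hc : IsCompact ((toWeakSpace ℝ X) '' ((fun v => ρ⁻¹ • v) '' K)) := by
    have h1 : (toWeakSpace ℝ X) '' ((fun v => ρ⁻¹ • v) '' K) =
        (fun w : WeakSpace ℝ X => ρ⁻¹ • w) '' ((toWeakSpace ℝ X) '' K) := by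
      ext w
      simp only [mem_image, exists_exists_and_eq_and, map_smul]
    rw [h1]
    exact hK.image (continuous_const_smul _)
  obtain ⟨F, m, hF, h⟩ := T.absorb _ (by
    rintro _ ⟨v, hv, rfl⟩
    have := hb v hv
    simp only [mem_closedBall_zero_iff, norm_smul, norm_inv, Real.norm_eq_abs, abs_of_pos hρ]
    rw [inv_mul_le_iff₀ hρ]
    linarith) hc (1 / (4 * ρ)) (by positivity)
  have hK' : ∀ v ∈ K, ∀ t, t ∉ RR F m → |H.co t v| ≤ 1 / 4 := by
    intro v hv t ht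
    obtain ⟨_, _, _, h2⟩ := h _ ⟨v, hv, rfl⟩
    have h3 := h2 t ht
    simp only [map_smul, smul_eq_mul, abs_mul, abs_inv, abs_of_pos hρ] at h3
    rw [inv_mul_le_iff₀ hρ] at h3
    calc |H.co t v| ≤ _ := h3
      _ = 1 / 4 := by field_simp
  refine ⟨F.subtype (· ∈ C), fun F' hF' x hx => ?_⟩
  have h4 := mem_of_absorb (F := F'.map (Function.Embedding.subtype _)) T.good H hK' hF'
  have h5 : (x : ℕ → Bool) ∈ F := h4 (Finset.mem_map.2 ⟨x, hx, rfl⟩)
  exact Finset.mem_subtype.2 h5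

/-- `[C]^{<ω} ⪯ AK(B_X)`. -/
theorem Tree.above [CompleteSpace X] (T : Tree C H) : AKAbove X (Finset C) := by
  refine ⟨1 / 4, by norm_num, fun F => T.kk F 0, fun K => ?_⟩
  obtain ⟨F₀, h⟩ := T.finite_absorbed K.1 K.2.2
  exact ⟨F₀, fun F hF => h F hF⟩

/-- `AK(B_X) ⪯ [C]^{<ω} × ω`. -/
theorem Tree.below (T : Tree C H) : AKBelow X (Finset C × ℕ) := by
  intro ε hε
  choose F m h using fun L : WKB X => T.absorb' L ε hε
  refine ⟨fun L => (F L, m L), fun v => ⟨T.kk v.1 v.2, fun L hL v hv => ?_⟩⟩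
  obtain ⟨w, hw, hvw⟩ := h L v hv
  exact ⟨w, T.kk_mono hL.1 hL.2 hw, hvw⟩

/-- If `C` is uncountable then countably many weakly compact sets absorb only countably many
of the balls. -/
theorem Tree.no_countable [CompleteSpace X] (T : Tree C H) (hC : ¬ C.Countable) (K : ℕ → Set X)
    (hK : ∀ n, IsCompact ((toWeakSpace ℝ X) '' K n)) :
    ¬ ∀ x : C, ∃ n, ∀ v ∈ (T.kk {x} 0).1, ∃ w ∈ K n, ‖v - w‖ ≤ 1 / 4 := by
  intro h
  choose F₀ hF₀ using fun n => T.finite_absorbed (K n) (hK n)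
  apply hC
  have h1 : (univ : Set C) ⊆ ⋃ n, (F₀ n : Set C) := by
    intro x _
    obtain ⟨n, hn⟩ := h x
    exact mem_iUnion.2 ⟨n, hF₀ n {x} hn (Finset.mem_singleton_self x)⟩
  have h2 : (univ : Set C).Countable :=
    (countable_iUnion fun n => (F₀ n).countable_toSet).mono h1
  exact countable_coe_iff.1 (countable_univ_iff.1 h2)

theorem Tree.not_below [CompleteSpace X] (T : Tree C H) (hC : ¬ C.Countable) :
    ¬ AKBelow X ℕ := by
  intro h
  obtain ⟨g, hg⟩ := h (1 / 4) (by norm_num)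
  choose K hK using hg
  refine T.no_countable hC (fun n => (K n).1) (fun n => (K n).2.2) (fun x => ?_)
  exact ⟨g (T.kk {x} 0), fun v hv => hK _ (T.kk {x} 0) le_rfl v hv⟩

theorem Tree.not_swcg [CompleteSpace X] (T : Tree C H) (hC : ¬ C.Countable) : ¬ SWCG X := by
  rintro ⟨K, hK, h⟩
  refine T.no_countable hC (fun n => (fun w => (n : ℝ) • w) '' K) (fun n => ?_) (fun x => ?_)
  · have h1 : (toWeakSpace ℝ X) '' ((fun v => (n : ℝ) • v) '' K) =
        (fun w : WeakSpace ℝ X => (n : ℝ) • w) '' ((toWeakSpace ℝ X) '' K) := by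
      ext w
      simp only [mem_image, exists_exists_and_eq_and, map_smul]
    rw [h1]
    exact hK.image (continuous_const_smul _)
  · obtain ⟨n, hn⟩ := h (1 / 4) (by norm_num) (T.kk {x} 0).1 (T.kk {x} 0).2.2
    refine ⟨n, fun v hv => ?_⟩
    obtain ⟨w, hw, hvw⟩ := hn v hv
    exact ⟨_, ⟨w, hw, rfl⟩, hvw⟩

theorem aleph0_lt_cof : ℵ₀ < Order.cof (ℕ → ℕ) := by
  obtain ⟨s, hs, hcard⟩ := Order.exists_cof_eq (ℕ → ℕ)
  rw [← hcard]
  by_contra hle
  have hc : s.Countable := by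
    rw [← Cardinal.le_aleph0_iff_set_countable]
    exact not_lt.1 hle
  have hne : s.Nonempty := by
    obtain ⟨b, hb, _⟩ := hs 0
    exact ⟨b, hb⟩
  obtain ⟨d, rfl⟩ := hc.exists_eq_range hne
  obtain ⟨_, ⟨n, rfl⟩, hn⟩ := hs (fun n => d n n + 1)
  have := hn n
  simp at this

theorem mk_le_max (C : Set (ℕ → Bool)) : #(Finset C × ℕ) ≤ max #C ℵ₀ := by
  rw [Cardinal.mk_prod, Cardinal.lift_uzero, Cardinal.lift_uzero, Cardinal.mk_nat]
  have h1 : #(Finset C) ≤ max #C ℵ₀ := by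
    rcases finite_or_infinite C with h | h
    · exact le_max_of_le_right (Cardinal.mk_le_aleph0)
    · rw [Cardinal.mk_finset_of_infinite]
      exact le_max_left _ _
  calc #(Finset C) * ℵ₀ ≤ max #C ℵ₀ * max #C ℵ₀ := by
        exact mul_le_mul' h1 (le_max_right _ _)
    _ = max #C ℵ₀ := Cardinal.mul_eq_self (le_max_right _ _)

theorem Tree.not_above (T : Tree C H) (hC : #C < Order.cof (ℕ → ℕ)) :
    ¬ AKAbove X (ℕ → ℕ) := by
  rintro ⟨δ, hδ, h, hT⟩
  choose G hG using hT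
  have hcof : IsCofinal (range fun p : Finset C × ℕ => G (T.kk p.1 p.2)) := by
    intro g
    obtain ⟨F, m, hF⟩ := T.absorb' (h g) δ hδ
    exact ⟨_, ⟨(F, m), rfl⟩, hG _ g hF⟩
  have h1 := Order.cof_le hcof
  have h2 : #(range fun p : Finset C × ℕ => G (T.kk p.1 p.2)) ≤ #(Finset C × ℕ) :=
    Cardinal.mk_range_le
  have h3 := (h1.trans h2).trans (mk_le_max C)
  exact absurd h3 (not_le.2 (max_lt hC aleph0_lt_cof))

end

end Pool.Agent.Helper26.TK
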