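import Pool.Agent.Helper26.TK.Defs

/-!
Exact statements (as Props) of three independent lemmas for MP_c88f67_an.
-/

namespace Pool.Agent.Helper26.TK

open Set Filter Topology MeasureTheory

open Classical in
/-- Packet Q.  `A k a` says that the finite increasing sequence `a 0 < ... < a (k-1)` is
admissible.  If there is no infinite admissible sequence then, for every system of successive
intervals `[r i, r (i+1))`, some convex combination of far out intervals has small mass on the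
intervals hit by any admissible sequence. -/
def StmtQ : Prop :=
  ∀ (A : ℕ → (ℕ → ℕ) → Prop),
    (∀ (k : ℕ) (a b : ℕ → ℕ), (∀ i < k, a i = b i) → A k a → A k b) →
    (∀ (k : ℕ) (a : ℕ → ℕ), A (k + 1) a → A k a) →
    (¬ ∃ a : ℕ → ℕ, StrictMono a ∧ ∀ k, A k a) →
    ∀ (r : ℕ → ℕ), StrictMono r → ∀ (η : ℝ), 0 < η → ∀ i0 : ℕ,
      ∃ (s : Finset ℕ) (lam : ℕ → ℝ), (∀ i ∈ s, i0 ≤ i) ∧ (∀ i, 0 ≤ lam i) ∧
        (∀ i, i ∉ s → lam i = 0) ∧ ∑ i ∈ s, lam i = 1 ∧
        ∀ (k : ℕ) (a : ℕ → ℕ), StrictMono a → A k a →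
          ∑ i ∈ s.filter (fun i => ∃ j < k, r i ≤ a j ∧ a j < r (i + 1)), lam i ≤ η

open Classical in
/-- Packet M.  Mass distributions `w m` on finite sets `s m` of nodes of level at least `m`, of
total mass between `ε` and `1`: a definite mass stays near a compact part of `range f` on which
`f⁻¹` is bounded, or near a single branch outside `range f`. -/
def StmtM : Prop :=
  ∀ (f : (ℕ → ℕ) → (ℕ → Bool)), Continuous f →
    (∀ K : Set (ℕ → Bool), IsClosed K → K ⊆ (Set.range f)ᶜ → K.Countable) →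
    ∀ (w : ℕ → Node → ℝ) (s : ℕ → Finset Node) (ε : ℝ), 0 < ε →
      (∀ m t, 0 ≤ w m t) → (∀ m, ∀ t ∈ s m, m ≤ t.length) →
      (∀ m, ε ≤ ∑ t ∈ s m, w m t) → (∀ m, ∑ t ∈ s m, w m t ≤ 1) →
      ∃ c : ℝ, 0 < c ∧
        ((∃ g : ℕ → ℕ, ∀ i M : ℕ, ∃ m ≥ M,
            c ≤ ∑ t ∈ (s m).filter (fun t => ∃ y : ℕ → ℕ, (∀ j ≤ i, y j ≤ g j) ∧
              ∀ j ≤ i, f y j = ext t j), w m t) ∨
         (∃ x, x ∉ Set.range f ∧ ∀ j M : ℕ, ∃ m ≥ M,
            c ≤ ∑ t ∈ (s m).filter (fun t => ∀ i < j, ext t i = x i), w m t))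

/-- Packet S.  A weakly compact set does not contain a sequence on which a sequence of
functionals with `ℓ¹`-bounded values is bounded below along the diagonal. -/
def StmtS : Prop :=
  ∀ (X : Type) [NormedAddCommGroup X] [NormedSpace ℝ X] [CompleteSpace X]
    (c : ℕ → (X →L[ℝ] ℝ)) (L : Set X),
    (∀ w : X, (∀ n, c n w = 0) → w = 0) →
    IsCompact ((toWeakSpace ℝ X) '' L) →
    ∀ (v : ℕ → X), (∀ k, v k ∈ L) →
    ∀ (F : ℕ → (X →L[ℝ] ℝ)), (∀ n w, ∑ k ∈ Finset.range n, |F k w| ≤ ‖w‖) →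
    ∀ δ : ℝ, 0 < δ → ∃ k, F k (v k) < δ

end Pool.Agent.Helper26.TK
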