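import Pool.Agent.Helper26.TK.Unc
import Pool.Agent.Helper26.TK.Stmts

/-!
Assembly of the theorem on the Tukey dichotomy from the exact statements.
-/

namespace Pool.Agent.Helper26.TK

open Set Filter Topology MeasureTheory Cardinal TopologicalSpace

/-- The statement about a single coanalytic set. -/
def Realizes (C : Set (ℕ → Bool)) : Prop :=
  ∃ (X : Type) (_ : NormedAddCommGroup X) (_ : NormedSpace ℝ X),
    CompleteSpace X ∧ TopologicalSpace.SeparableSpace X ∧ UncBasis X ∧
    AKAbove X (Finset C) ∧ AKBelow X (Finset C × ℕ) ∧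
    (¬ C.Countable → ¬ AKBelow X ℕ ∧ ¬ SWCG X) ∧
    (#C < Order.cof (ℕ → ℕ) → ¬ AKAbove X (ℕ → ℕ))

theorem not_countable_univ : ¬ (Set.univ : Set (ℕ → Bool)).Countable := by
  intro h
  have h1 : #(ℕ → Bool) ≤ ℵ₀ := by
    rw [← Cardinal.mk_univ, Cardinal.le_aleph0_iff_set_countable]
    exact h
  have h2 : #(ℕ → Bool) = 𝔠 := by simp
  rw [h2] at h1
  exact absurd h1 (not_le.2 Cardinal.aleph0_lt_continuum)

theorem realizes (hG : StmtG) (hD : StmtD) (hW : StmtW) (hA : StmtA) (C : Set (ℕ → Bool))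
    (hC : AnalyticSet Cᶜ) (hthin : ∀ K : Set (ℕ → Bool), IsClosed K → K ⊆ C → K.Countable) :
    Realizes C := by
  rw [AnalyticSet] at hC
  rcases hC with hC | ⟨f, hf, hrange⟩
  · exfalso
    have h1 : C = Set.univ := by
      rw [← compl_empty, ← hC, compl_compl]
    exact not_countable_univ (hthin Set.univ isClosed_univ (by rw [h1]))
  · have hmem : ∀ x, x ∈ C ↔ x ∉ Set.range f := by
      intro x
      rw [hrange, notMem_compl_iff]
    have hthin' : ∀ K : Set (ℕ → Bool), IsClosed K → K ⊆ (Set.range f)ᶜ → K.Countable := by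
      intro K hK hKC
      refine hthin K hK (fun x hx => ?_)
      exact (hmem x).2 (hKC hx)
    obtain ⟨X, i1, i2, hcomp, hsep, ⟨H⟩⟩ := hG (Phi f) (hD f).1
    have := hcomp
    have T : Tree C H := by
      refine ⟨(hD f).1, fun F hF m => ?_, fun L hL hLc ε hε => ?_⟩
      · exact hW f hf X H F (fun x hx => (hmem x).1 (hF x hx)) m
      · obtain ⟨F, m, hF, h⟩ := hA f hf hthin' X H L hL hLc ε hε
        exact ⟨F, m, fun x hx => (hmem x).2 (hF x hx), h⟩
    exact ⟨X, i1, i2, hcomp, hsep, uncBasis (hD f).1 H, T.above, T.below, fun h => ⟨T.not_below h, T.not_swcg h⟩,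
      fun h => T.not_above h⟩

/-- A coanalytic set of size less than the cofinality of the pointwise order of `ℕ → ℕ` has no
uncountable closed subset. -/
theorem thin_of_card (C : Set (ℕ → Bool)) (hC : #C < Order.cof (ℕ → ℕ)) :
    ∀ K : Set (ℕ → Bool), IsClosed K → K ⊆ C → K.Countable := by
  intro K hK hKC
  by_contra hnc
  have i1 : SecondCountableTopology (ℕ → Bool) := inferInstance
  have i2 : IsCompletelyMetrizableSpace (ℕ → Bool) := inferInstance
  have i3 : PolishSpace (ℕ → Bool) := { i1, i2 with }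
  obtain ⟨g, hg, _, hinj⟩ := hK.exists_nat_bool_injection_of_not_countable hnc
  have h1 : #(ℕ → Bool) ≤ #C := by
    refine Cardinal.mk_le_of_injective (f := fun z => (⟨g z, hKC (hg ⟨z, rfl⟩)⟩ : C)) ?_
    intro a b hab
    exact hinj (congrArg Subtype.val hab)
  have h2 : Order.cof (ℕ → ℕ) ≤ #(ℕ → ℕ) := Order.cof_le_cardinalMk _
  have h3 : #(ℕ → ℕ) = 𝔠 := by simp
  have h4 : #(ℕ → Bool) = 𝔠 := by simp
  rw [h3] at h2
  rw [h4] at h1
  exact absurd (h2.trans h1) (not_le.2 hC)

theorem main (hG : StmtG) (hD : StmtD) (hW : StmtW) (hA : StmtA) :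
    (∀ C : Set (ℕ → Bool), AnalyticSet Cᶜ →
      (∀ K : Set (ℕ → Bool), IsClosed K → K ⊆ C → K.Countable) → Realizes C) ∧
    ((∀ (X : Type) [NormedAddCommGroup X] [NormedSpace ℝ X] [CompleteSpace X]
        [TopologicalSpace.SeparableSpace X], UncBasis X → AKBelow X ℕ ∨ AKAbove X (ℕ → ℕ)) →
      ∀ C : Set (ℕ → Bool), AnalyticSet Cᶜ → #C < Order.cof (ℕ → ℕ) → C.Countable) := by
  refine ⟨fun C hC hthin => realizes hG hD hW hA C hC hthin, fun hdich C hC hcard => ?_⟩
  by_contra hnc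
  obtain ⟨X, i1, i2, hcomp, hsep, hunc, _, _, h1, h2⟩ :=
    realizes hG hD hW hA C hC (thin_of_card C hcard)
  rcases hdich X hunc with h | h
  · exact (h1 hnc).1 h
  · exact h2 hcard h

end Pool.Agent.Helper26.TK
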