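import Pool.Agent.Helper26.TK.PfR5

/-!
Packet R2: only finitely many terms of a separated sequence are close to a weakly compact set.
-/

namespace Pool.Agent.Helper26.TK

open Set Filter Topology MeasureTheory Cardinal

section

variable {X : Type} [NormedAddCommGroup X] [NormedSpace ℝ X]

/-- Points of the convex hull of a family can be transferred to a nearby family. -/
theorem hull_transfer {I : Set ℕ} {w x : ℕ → X} {η : ℝ} (hη : ∀ i ∈ I, ‖x i - w i‖ ≤ η)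
    {u : X} (hu : u ∈ convexHull ℝ (w '' I)) : ∃ u' ∈ convexHull ℝ (x '' I), ‖u' - u‖ ≤ η := by
  have hconv : Convex ℝ {u : X | ∃ u' ∈ convexHull ℝ (x '' I), ‖u' - u‖ ≤ η} := by
    intro u1 h1 u2 h2 a b ha hb hab
    obtain ⟨u1', h1', h1n⟩ := h1
    obtain ⟨u2', h2', h2n⟩ := h2
    refine ⟨a • u1' + b • u2', convex_convexHull ℝ _ h1' h2' ha hb hab, ?_⟩
    calc ‖a • u1' + b • u2' - (a • u1 + b • u2)‖ = ‖a • (u1' - u1) + b • (u2' - u2)‖ := by
          congr 1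
          rw [smul_sub, smul_sub]; abel
      _ ≤ ‖a • (u1' - u1)‖ + ‖b • (u2' - u2)‖ := norm_add_le _ _
      _ = a * ‖u1' - u1‖ + b * ‖u2' - u2‖ := by
          rw [norm_smul, norm_smul, Real.norm_of_nonneg ha, Real.norm_of_nonneg hb]
      _ ≤ a * η + b * η := by gcongr
      _ = η := by rw [← add_mul, hab, one_mul]
  refine convexHull_min ?_ hconv hu
  rintro _ ⟨i, hi, rfl⟩
  exact ⟨x i, subset_convexHull ℝ _ ⟨i, hi, rfl⟩, hη i hi⟩

/-- A point of the convex hull of a sequence is in the hull of an initial part. -/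
theorem hull_finite {w : ℕ → X} {I : Set ℕ} {u : X} (hu : u ∈ convexHull ℝ (w '' I)) :
    ∃ k : ℕ, u ∈ convexHull ℝ (w '' (I ∩ Set.Iio k)) := by
  have hconv : Convex ℝ {u : X | ∃ k : ℕ, u ∈ convexHull ℝ (w '' (I ∩ Set.Iio k))} := by
    intro u1 h1 u2 h2 a b ha hb hab
    obtain ⟨k1, h1⟩ := h1
    obtain ⟨k2, h2⟩ := h2
    refine ⟨max k1 k2, convex_convexHull ℝ _ ?_ ?_ ha hb hab⟩
    · refine convexHull_mono (image_mono ?_) h1
      exact inter_subset_inter_right _ (Set.Iio_subset_Iio (le_max_left _ _))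
    · refine convexHull_mono (image_mono ?_) h2
      exact inter_subset_inter_right _ (Set.Iio_subset_Iio (le_max_right _ _))
  refine convexHull_min ?_ hconv hu
  rintro _ ⟨i, hi, rfl⟩
  exact ⟨i + 1, subset_convexHull ℝ _ ⟨i, ⟨hi, Nat.lt_succ_self i⟩, rfl⟩⟩

end

theorem stmtR2 : StmtR2 := by
  classical
  intro X _ _ K hK δ hδ x hx
  by_contra hinf
  have hinf' : {i : ℕ | ∃ w ∈ K, ‖x i - w‖ ≤ δ / 4}.Infinite := hinf
  set I : Set ℕ := {i : ℕ | ∃ w ∈ K, ‖x i - w‖ ≤ δ / 4} with hI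
  have hw : ∀ i : ℕ, ∃ w, i ∈ I → w ∈ K ∧ ‖x i - w‖ ≤ δ / 4 := by
    intro i
    by_cases h : i ∈ I
    · obtain ⟨w, hw⟩ := h
      exact ⟨w, fun _ => hw⟩
    · exact ⟨0, fun h' => absurd h' h⟩
  choose w hw using hw
  -- cluster point
  have hne : (atTop ⊓ 𝓟 I : Filter ℕ).NeBot := by
    rw [← Filter.frequently_mem_iff_neBot]
    exact Nat.frequently_atTop_iff_infinite.2 hinf'
  have hmap : Filter.map (fun i => toWeakSpace ℝ X (w i)) (atTop ⊓ 𝓟 I) ≤
      𝓟 ((toWeakSpace ℝ X) '' K) := by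
    rw [Filter.le_principal_iff, Filter.mem_map]
    refine Filter.mem_inf_of_right ?_
    intro i hi
    exact ⟨w i, (hw i hi).1, rfl⟩
  obtain ⟨_, ⟨p, hp, rfl⟩, hcl⟩ := hK (f := Filter.map (fun i => toWeakSpace ℝ X (w i))
    (atTop ⊓ 𝓟 I)) hmap
  -- Mazur
  have hmazur : ∀ k : ℕ, p ∈ closure (convexHull ℝ (w '' (I ∩ Set.Ici k))) := by
    intro k
    have h1 := Convex.toWeakSpace_closure (𝕜 := ℝ) (convex_convexHull ℝ (w '' (I ∩ Set.Ici k)))
    have h2 : toWeakSpace ℝ X p ∈ closure (toWeakSpace ℝ X '' convexHull ℝ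
        (w '' (I ∩ Set.Ici k))) := by
      rw [mem_closure_iff_clusterPt]
      refine hcl.mono ?_
      rw [Filter.le_principal_iff, Filter.mem_map]
      have h3 : I ∩ Set.Ici k ∈ (atTop ⊓ 𝓟 I : Filter ℕ) := by
        refine Filter.inter_mem (Filter.mem_inf_of_right (Filter.mem_principal_self _))
          (Filter.mem_inf_of_left (Filter.Ici_mem_atTop k))
      refine Filter.mem_of_superset h3 ?_
      intro i hi
      exact ⟨w i, subset_convexHull ℝ _ ⟨i, hi, rfl⟩, rfl⟩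
    rw [← h1] at h2
    obtain ⟨q, hq, hqp⟩ := h2
    have : q = p := (toWeakSpace ℝ X).injective hqp
    rwa [this] at hq
  obtain ⟨u, hu, hup⟩ := Metric.mem_closure_iff.1 (hmazur 0) (δ / 8) (by positivity)
  obtain ⟨k, hk⟩ := hull_finite hu
  obtain ⟨v, hv, hvp⟩ := Metric.mem_closure_iff.1 (hmazur k) (δ / 8) (by positivity)
  obtain ⟨u', hu', hu'n⟩ := hull_transfer (I := (I ∩ Set.Ici 0) ∩ Set.Iio k) (x := x)
    (fun i hi => (hw i hi.1.1).2) hk
  obtain ⟨v', hv', hv'n⟩ := hull_transfer (I := I ∩ Set.Ici k) (x := x)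
    (fun i hi => (hw i hi.1).2) hv
  have h4 := hx k u' (convexHull_mono (image_mono (fun i hi => hi.2)) hu') v'
    (convexHull_mono (image_mono (fun i hi => hi.2)) hv')
  rw [dist_eq_norm] at hup hvp
  have h5 : ‖u' - v'‖ ≤ ‖u' - u‖ + ‖p - u‖ + ‖p - v‖ + ‖v' - v‖ := by
    calc ‖u' - v'‖ = ‖(u' - u) - (p - u) + (p - v) - (v' - v)‖ := by congr 1; abel
      _ ≤ ‖(u' - u) - (p - u) + (p - v)‖ + ‖v' - v‖ := norm_sub_le _ _
      _ ≤ ‖(u' - u) - (p - u)‖ + ‖p - v‖ + ‖v' - v‖ := by gcongr; exact norm_add_le _ _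
      _ ≤ ‖u' - u‖ + ‖p - u‖ + ‖p - v‖ + ‖v' - v‖ := by gcongr; exact norm_sub_le _ _
  linarith

end Pool.Agent.Helper26.TK
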