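import Pool.Agent.Helper26.TK.Pos

/-!
Packet R3: the tree gives a Tukey function from the Baire space.
-/

namespace Pool.Agent.Helper26.TK

open Set Filter Topology MeasureTheory Cardinal

theorem rp_succ (y : ℕ → ℕ) (n : ℕ) : rp y (n + 1) = y n :: rp y n := by
  unfold rp
  rw [List.range_succ, List.map_append, List.reverse_append]
  simp

theorem stmtR3 (hR2 : StmtR2) : StmtR3 := by
  classical
  intro X _ _ d δ hδ hT
  obtain ⟨a, ha, hWC⟩ := hT
  choose h hh using hWC
  refine ⟨δ / 4, by positivity, h, fun K => ?_⟩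
  have hfin : ∀ t : List ℕ, {k : ℕ | ∃ w ∈ K.1, ‖d (a (k :: t)) - w‖ ≤ δ / 4}.Finite :=
    fun t => hR2 X K.1 K.2.2 δ hδ _ (ha t)
  let Fi : List ℕ → Finset ℕ := fun t => (hfin t).toFinset
  have hFi : ∀ t k, k ∈ Fi t ↔ ∃ w ∈ K.1, ‖d (a (k :: t)) - w‖ ≤ δ / 4 := by
    intro t k
    simp [Fi]
  let T : ℕ → Finset (List ℕ) := fun n => Nat.rec {[]}
    (fun _ S => S.biUnion (fun t => (Fi t).image (fun k => k :: t))) n
  have hT0 : T 0 = {[]} := rfl
  have hTs : ∀ n, T (n + 1) = (T n).biUnion (fun t => (Fi t).image (fun k => k :: t)) :=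
    fun n => rfl
  refine ⟨fun n => (T n).sup (fun t => (Fi t).sup id), fun y hy => ?_⟩
  have hlab : ∀ n, y n ∈ Fi (rp y n) := by
    intro n
    rw [hFi, ← rp_succ]
    exact hy _ (hh y _ ⟨n, rfl⟩)
  have hmem : ∀ n, rp y n ∈ T n := by
    intro n
    induction n with
    | zero =>
      rw [hT0]
      simp [rp]
    | succ n ih =>
      rw [hTs, Finset.mem_biUnion]
      refine ⟨rp y n, ih, ?_⟩
      rw [Finset.mem_image]
      exact ⟨y n, hlab n, (rp_succ y n).symm⟩
  intro n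
  have h1 : y n ≤ (Fi (rp y n)).sup id := Finset.le_sup (f := id) (hlab n)
  have h2 : (Fi (rp y n)).sup id ≤ (T n).sup (fun t => (Fi t).sup id) :=
    Finset.le_sup (f := fun t => (Fi t).sup id) (hmem n)
  exact h1.trans h2

end Pool.Agent.Helper26.TK
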