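import Pool.Agent.Helper26.TK.PfR5
import Pool.Agent.Helper26.TK.PfR3

/-!
Packet R4: the Hurewicz type dichotomy for analytic families.
-/

namespace Pool.Agent.Helper26.TK

open Set Filter Topology MeasureTheory Cardinal

/-- The cylinder of a list. -/
def cyl (s : List ℕ) : Set (ℕ → ℕ) := {z | pre z s.length = s}

theorem pre_length (z : ℕ → ℕ) (n : ℕ) : (pre z n).length = n := by simp [pre]

theorem mem_cyl_pre (z : ℕ → ℕ) (n : ℕ) : z ∈ cyl (pre z n) := by
  show pre z (pre z n).length = pre z n
  rw [pre_length]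

theorem pre_eq_iff {z z' : ℕ → ℕ} {n : ℕ} : pre z n = pre z' n ↔ ∀ i < n, z i = z' i := by
  constructor
  · intro h i hi
    have h1 : (pre z n)[i]? = (pre z' n)[i]? := by rw [h]
    simpa [pre, hi] using h1
  · intro h
    unfold pre
    apply List.map_congr_left
    intro i hi
    exact h i (List.mem_range.1 hi)

/-- Neighbourhoods in the Baire space. -/
theorem exists_pre {U : Set (ℕ → ℕ)} (hU : IsOpen U) {z : ℕ → ℕ} (hz : z ∈ U) (m : ℕ) :
    ∃ n, m < n ∧ cyl (pre z n) ⊆ U := by
  rw [isOpen_pi_iff] at hU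
  obtain ⟨I, u, h1, h2⟩ := hU z hz
  refine ⟨max (m + 1) (I.sup id + 1), by
    exact lt_of_lt_of_le (Nat.lt_succ_self m) (le_max_left _ _), fun z' hz' => h2 ?_⟩
  have hz'' : pre z' (pre z (max (m + 1) (I.sup id + 1))).length =
    pre z (max (m + 1) (I.sup id + 1)) := hz'
  rw [pre_length, pre_eq_iff] at hz''
  intro i hi
  have hi' : i ≤ I.sup id := Finset.le_sup (f := id) hi
  have : z' i = z i := hz'' i (lt_of_lt_of_le (Nat.lt_succ_of_le hi') (le_max_right _ _))
  rw [this]
  exact (h1 i hi).2

theorem stmtR4 : StmtR4 := by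
  classical
  intro X _ _ d δ F hF hFW
  -- small sets
  let Small : Set (ℕ → ℕ) → Prop := fun M => ∃ C : ℕ → Set ℕ, (∀ n, JJ d δ (C n)) ∧
    ∀ z ∈ M, ∃ n, {i | F z i = true} ⊆ C n
  have hSmono : ∀ M M' : Set (ℕ → ℕ), M ⊆ M' → Small M' → Small M := by
    rintro M M' h ⟨C, h1, h2⟩
    exact ⟨C, h1, fun z hz => h2 z (h hz)⟩
  have hSunion : ∀ M : ℕ → Set (ℕ → ℕ), (∀ k, Small (M k)) → Small (⋃ k, M k) := by
    intro M hM
    choose C h1 h2 using hM
    refine ⟨fun n => C (Nat.unpair n).1 (Nat.unpair n).2, fun n => h1 _ _, fun z hz => ?_⟩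
    obtain ⟨k, hk⟩ := mem_iUnion.1 hz
    obtain ⟨n, hn⟩ := h2 k z hk
    refine ⟨Nat.pair k n, ?_⟩
    simpa using hn
  have hSempty : Small ∅ := by
    refine ⟨fun _ => ∅, fun _ => ?_, fun z hz => absurd hz (notMem_empty z)⟩
    rintro ⟨s, hs, -⟩
    exact hs 0
  by_cases huniv : Small univ
  · right
    obtain ⟨C, h1, h2⟩ := huniv
    exact ⟨C, h1, fun z => h2 z (mem_univ z)⟩
  · left
    let O : Set (ℕ → ℕ) := ⋃ n : ℕ, (if Small (cyl (Denumerable.ofNat (List ℕ) n)) then
      cyl (Denumerable.ofNat (List ℕ) n) else ∅)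
    have hO : Small O := by
      apply hSunion
      intro k
      split_ifs with h
      · exact h
      · exact hSempty
    have hcylO : ∀ s, Small (cyl s) → cyl s ⊆ O := by
      intro s hs z hz
      refine mem_iUnion.2 ⟨Encodable.encode s, ?_⟩
      have h1 : Denumerable.ofNat (List ℕ) (Encodable.encode s) = s := Denumerable.ofNat_encode _
      rw [h1, if_pos hs]
      exact hz
    -- good nodes
    let Z : Set (ℕ → ℕ) := Oᶜ
    have hUs : ∀ s : List ℕ, (cyl s ∩ Z).Nonempty →
        ∃ q : ℕ → ℕ, (∀ k, ∃ z ∈ cyl s ∩ Z, F z (q k) = true) ∧ Sep δ (fun i => d (q i)) := by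
      intro s hs
      have hns : ¬ Small (cyl s ∩ Z) := by
        intro h
        have h1 : Small (cyl s) := by
          refine hSmono _ (⋃ k : ℕ, if k = 0 then cyl s ∩ Z else O) ?_ ?_
          · intro z hz
            by_cases hzO : z ∈ O
            · exact mem_iUnion.2 ⟨1, by simpa using hzO⟩
            · exact mem_iUnion.2 ⟨0, by simpa using ⟨hz, hzO⟩⟩
          · apply hSunion
            intro k
            split_ifs
            · exact h
            · exact hO
        obtain ⟨z, hz1, hz2⟩ := hs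
        exact hz2 (hcylO s h1 hz1)
      have hJ : ¬ JJ d δ {i | ∃ z ∈ cyl s ∩ Z, F z i = true} := by
        intro h
        exact hns ⟨fun _ => {i | ∃ z ∈ cyl s ∩ Z, F z i = true}, fun _ => h,
          fun z hz => ⟨0, fun i hi => ⟨z, hz, hi⟩⟩⟩
      obtain ⟨q, hq1, hq2⟩ := not_not.1 hJ
      exact ⟨q, hq1, hq2⟩
    choose! q hq1 hq2 using hUs
    -- extension
    have hext : ∀ (s : List ℕ) (k : ℕ), (cyl s ∩ Z).Nonempty → ∃ s' : List ℕ,
        s.length < s'.length ∧ s <+: s' ∧ (cyl s' ∩ Z).Nonempty ∧
        ∀ z' ∈ cyl s', F z' (q s k) = true := by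
      intro s k hs
      obtain ⟨z, ⟨hz1, hz2⟩, hz3⟩ := hq1 s hs k
      have hopen : IsOpen {z' : ℕ → ℕ | F z' (q s k) = true} := by
        have hc : Continuous (fun z' : ℕ → ℕ => F z' (q s k)) := (continuous_apply _).comp hF
        exact (isOpen_discrete ({true} : Set Bool)).preimage hc
      obtain ⟨n, hn, hn2⟩ := exists_pre hopen hz3 s.length
      refine ⟨pre z n, by rw [pre_length]; exact hn, ?_, ⟨z, mem_cyl_pre z n, hz2⟩, hn2⟩
      have h1 : pre z s.length = s := hz1
      rw [← h1]
      unfold pre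
      have h2 : List.range s.length <+: List.range n := by
        rw [List.prefix_iff_eq_take]
        simp [List.take_range, min_eq_left hn.le]
      exact h2.map z
    choose! e he1 he2 he3 he4 using hext
    have hne : (cyl [] ∩ Z).Nonempty := by
      by_contra h
      apply huniv
      refine hSmono _ O ?_ hO
      intro z _
      by_contra hz
      exact h ⟨z, rfl, hz⟩
    let σ : List ℕ → List ℕ := fun t => List.rec [] (fun k _ s => e s k) t
    have hσ0 : σ [] = [] := rfl
    have hσs : ∀ k t, σ (k :: t) = e (σ t) k := fun k t => rfl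
    have hσne : ∀ t, (cyl (σ t) ∩ Z).Nonempty := by
      intro t
      induction t with
      | nil => exact hne
      | cons k t ih => rw [hσs]; exact he3 _ _ ih
    let a : List ℕ → ℕ := fun t => match t with
      | [] => 0
      | k :: t => q (σ t) k
    refine ⟨a, fun t => hq2 (σ t) (hσne t), fun y => ?_⟩
    -- the limit point
    have hlen : ∀ n, n ≤ (σ (rp y n)).length := by
      intro n
      induction n with
      | zero => exact Nat.zero_le _
      | succ n ih =>
        rw [rp_succ, hσs]
        have := he1 (σ (rp y n)) (y n) (hσne _)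
        omega
    have hpre : ∀ n m, n ≤ m → σ (rp y n) <+: σ (rp y m) := by
      intro n m hnm
      induction m, hnm using Nat.le_induction with
      | base => exact List.prefix_rfl
      | succ m _ ih =>
        refine ih.trans ?_
        rw [rp_succ, hσs]
        exact he2 _ _ (hσne _)
    let z : ℕ → ℕ := fun i => (σ (rp y (i + 1))).getD i 0
    have hz : ∀ n, z ∈ cyl (σ (rp y n)) := by
      intro n
      show pre z (σ (rp y n)).length = σ (rp y n)
      apply List.ext_getElem
      · rw [pre_length]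
      · intro i h1 h2
        have h3 : (pre z (σ (rp y n)).length)[i] = z i := by simp [pre]
        rw [h3]
        show (σ (rp y (i + 1))).getD i 0 = _
        have h4 : i < (σ (rp y (i + 1))).length := lt_of_lt_of_le (Nat.lt_succ_self i) (hlen _)
        rw [List.getD_eq_getElem _ _ h4]
        rcases le_total (i + 1) n with h | h
        · exact (hpre _ _ h).getElem h4
        · exact ((hpre _ _ h).getElem h2).symm
    obtain ⟨K, hK⟩ := hFW z
    refine ⟨K, ?_⟩
    rintro _ ⟨n, rfl⟩
    apply hK
    show F z (a (rp y (n + 1))) = true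
    rw [rp_succ]
    show F z (q (σ (rp y n)) (y n)) = true
    apply he4 _ _ (hσne _)
    rw [← hσs, ← rp_succ]
    exact hz (n + 1)

end Pool.Agent.Helper26.TK
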