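import Pool.Agent.Helper26.TK.PfR8

/-!
Packet R5: sets with a base indexed by the Baire space.
-/

namespace Pool.Agent.Helper26.TK

open Set Filter Topology MeasureTheory Cardinal

section

variable {X : Type} [NormedAddCommGroup X] [NormedSpace ℝ X]

theorem Sep.comp {δ : ℝ} {x : ℕ → X} (h : Sep δ x) {φ : ℕ → ℕ} (hφ : StrictMono φ) :
    Sep δ (fun i => x (φ i)) := by
  intro k u hu v hv
  refine h (φ k) u (convexHull_mono ?_ hu) v (convexHull_mono ?_ hv)
  · rintro _ ⟨i, hi, rfl⟩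
    exact ⟨φ i, hφ hi, rfl⟩
  · rintro _ ⟨i, hi, rfl⟩
    exact ⟨φ i, hφ.monotone hi, rfl⟩

theorem Sep.mono {δ δ' : ℝ} {x : ℕ → X} (h : Sep δ' x) (hδ : δ ≤ δ') : Sep δ x :=
  fun k u hu v hv => hδ.trans (h k u hu v hv)

theorem Sep.inj {δ : ℝ} (hδ : 0 < δ) {x : ℕ → X} (h : Sep δ x) : Function.Injective x := by
  intro i j hij
  by_contra hne
  rcases lt_or_gt_of_ne hne with h' | h'
  · have := h.dist_le h'
    rw [hij, sub_self, norm_zero] at this
    linarith
  · have := h.dist_le h'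
    rw [hij, sub_self, norm_zero] at this
    linarith

theorem JJ.mono {d : ℕ → X} {δ : ℝ} {A B : Set ℕ} (hB : JJ d δ B) (hAB : A ⊆ B) : JJ d δ A := by
  rintro ⟨s, hs, hsep⟩
  exact hB ⟨s, fun i => hAB (hs i), hsep⟩

theorem JJ.mono_delta {d : ℕ → X} {δ δ' : ℝ} {A : Set ℕ} (hA : JJ d δ A) (hδ : δ ≤ δ') :
    JJ d δ' A := by
  rintro ⟨s, hs, hsep⟩
  exact hA ⟨s, hs, hsep.mono hδ⟩

theorem JJ.union {d : ℕ → X} {δ : ℝ} {A B : Set ℕ} (hA : JJ d δ A) (hB : JJ d δ B) :
    JJ d δ (A ∪ B) := by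
  rintro ⟨s, hs, hsep⟩
  by_cases hinf : {i | s i ∈ A}.Infinite
  · apply hA
    refine ⟨fun n => s (Nat.nth (fun i => s i ∈ A) n), fun n => ?_, hsep.comp ?_⟩
    · exact Nat.nth_mem_of_infinite hinf n
    · exact Nat.nth_strictMono hinf
  · have hfin : {i | s i ∈ A}.Finite := not_infinite.1 hinf
    have hinf2 : {i | s i ∈ B}.Infinite := by
      intro hfin2
      have : (Set.univ : Set ℕ) ⊆ {i | s i ∈ A} ∪ {i | s i ∈ B} := fun i _ => hs i
      exact Set.infinite_univ ((hfin.union hfin2).subset this)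
    apply hB
    refine ⟨fun n => s (Nat.nth (fun i => s i ∈ B) n), fun n => ?_, hsep.comp ?_⟩
    · exact Nat.nth_mem_of_infinite hinf2 n
    · exact Nat.nth_strictMono hinf2

theorem JJ.biUnion {d : ℕ → X} {δ : ℝ} {C : ℕ → Set ℕ} (hC : ∀ n, JJ d δ (C n)) (n : ℕ) :
    JJ d δ (⋃ m ∈ Finset.range (n + 1), C m) := by
  induction n with
  | zero =>
    refine (hC 0).mono ?_
    intro i hi
    simpa using hi
  | succ n ih =>
    refine (ih.union (hC (n + 1))).mono ?_
    intro i hi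
    simp only [Finset.mem_range, mem_iUnion, exists_prop] at hi
    obtain ⟨m, hm, hi⟩ := hi
    rcases Nat.lt_succ_iff_lt_or_eq.1 hm with h | h
    · left
      simp only [Finset.mem_range, mem_iUnion, exists_prop]
      exact ⟨m, by omega, hi⟩
    · right
      rw [← h]; exact hi

end

theorem stmtR5 (hR1 : StmtR1) : StmtR5 := by
  classical
  intro X _ _ _ d hd C0 hC0 ε hε
  -- increasing version
  let C : ℕ → ℕ → Set ℕ := fun j n => ⋃ m ∈ Finset.range (n + 1), C0 j m
  have hCJ : ∀ j n : ℕ, JJ d (1 / ((j : ℝ) + 1)) (C j n) := fun j n => JJ.biUnion (hC0 j) n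
  have hCmono : ∀ j n m, n ≤ m → C j n ⊆ C j m := by
    intro j n m hnm i hi
    simp only [C, Finset.mem_range, mem_iUnion, exists_prop] at hi ⊢
    obtain ⟨k, hk, hi⟩ := hi
    exact ⟨k, by omega, hi⟩
  have hC0C : ∀ j n, C0 j n ⊆ C j n := by
    intro j n i hi
    simp only [C, Finset.mem_range, mem_iUnion, exists_prop]
    exact ⟨n, by omega, hi⟩
  have hWC : ∀ H : Set ℕ, (∀ j, ∃ n, H ⊆ C j n) → WC d H := by
    intro H hH
    apply hR1 X d hd
    intro δ hδ
    obtain ⟨j, hj⟩ := exists_nat_one_div_lt hδ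
    obtain ⟨n, hn⟩ := hH j
    exact ((hCJ j n).mono hn).mono_delta hj.le
  -- the sets W
  let W : (ℕ → ℕ) → ℕ → Set ℕ := fun z l => {i | (∀ j, ∃ n, i ∈ C j n) ∧ ∀ j < l, i ∈ C j (z j)}
  let Wl : List ℕ → Set ℕ := fun s => {i | (∀ j, ∃ n, i ∈ C j n) ∧
    ∀ j < s.length, i ∈ C j (s.getD j 0)}
  have hWWl : ∀ z l, Wl ((List.range l).map z) = W z l := by
    intro z l
    ext i
    simp only [Wl, W, mem_ofPred_eq, List.length_map, List.length_range]
    refine and_congr_right (fun _ => ?_)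
    refine forall_congr' (fun j => forall_congr' (fun hj => ?_))
    rw [List.getD_eq_getElem?_getD]
    simp [hj]
  by_cases hgood : ∀ z : ℕ → ℕ, ∃ l, ∃ K : WKB X, ∀ i ∈ W z l, ∃ w ∈ K.1, ‖d i - w‖ ≤ ε
  · right
    have hpick : ∀ s : List ℕ, ∃ K : WKB X, (∃ K' : WKB X, ∀ i ∈ Wl s, ∃ w ∈ K'.1, ‖d i - w‖ ≤ ε) →
        ∀ i ∈ Wl s, ∃ w ∈ K.1, ‖d i - w‖ ≤ ε := by
      intro s
      by_cases h : ∃ K' : WKB X, ∀ i ∈ Wl s, ∃ w ∈ K'.1, ‖d i - w‖ ≤ ε
      · obtain ⟨K', hK'⟩ := h
        exact ⟨K', fun _ => hK'⟩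
      · exact ⟨⟨∅, by simp, by simp⟩, fun h' => absurd h' h⟩
    choose K hK using hpick
    refine ⟨fun m => K (Denumerable.ofNat (List ℕ) m), fun A hA => ?_⟩
    choose z hz using hA
    obtain ⟨l, K', hK'⟩ := hgood z
    refine ⟨Encodable.encode ((List.range l).map z), fun i hi => ?_⟩
    have h1 : Denumerable.ofNat (List ℕ) (Encodable.encode ((List.range l).map z)) =
        (List.range l).map z := Denumerable.ofNat_encode _
    have h2 : ∀ s : List ℕ, s = (List.range l).map z → ∃ w ∈ (K s).1, ‖d i - w‖ ≤ ε := by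
      rintro s rfl
      refine hK _ ⟨K', by rw [hWWl]; exact hK'⟩ i ?_
      rw [hWWl]
      exact ⟨fun j => ⟨z j, hC0C _ _ (hz j hi)⟩, fun j _ => hC0C _ _ (hz j hi)⟩
    exact h2 _ h1
  · left
    push Not at hgood
    obtain ⟨z, hz⟩ := hgood
    let F : ℕ → ℕ → Set ℕ := fun l k => {i | i ∈ W z l ∧ i ≤ k}
    let Hg : (ℕ → ℕ) → Set ℕ := fun g => ⋃ l, F l (g l)
    have hHg : ∀ g, WC d (Hg g) := by
      intro g
      apply hWC
      intro j
      -- finite part
      have hfin : ∀ L : ℕ, ∃ n, ∀ l < L, F l (g l) ⊆ C j n := by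
        intro L
        induction L with
        | zero => exact ⟨0, fun l hl => absurd hl (Nat.not_lt_zero l)⟩
        | succ L ih =>
          obtain ⟨n, hn⟩ := ih
          have hone : ∀ k : ℕ, ∃ n', ∀ i ≤ k, i ∈ W z L → i ∈ C j n' := by
            intro k
            induction k with
            | zero =>
              by_cases h0 : (0 : ℕ) ∈ W z L
              · obtain ⟨n', hn'⟩ := h0.1 j
                refine ⟨n', fun i hi _ => ?_⟩
                rw [Nat.le_zero.1 hi]; exact hn'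
              · refine ⟨0, fun i hi h => ?_⟩
                rw [Nat.le_zero.1 hi] at h
                exact absurd h h0
            | succ k ihk =>
              obtain ⟨n', hn'⟩ := ihk
              by_cases h0 : (k + 1 : ℕ) ∈ W z L
              · obtain ⟨n2, hn2⟩ := h0.1 j
                refine ⟨max n' n2, fun i hi h => ?_⟩
                rcases Nat.le_succ_iff.1 hi with h3 | h3
                · exact hCmono j _ _ (le_max_left _ _) (hn' i h3 h)
                · rw [h3]; exact hCmono j _ _ (le_max_right _ _) hn2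
              · refine ⟨n', fun i hi h => ?_⟩
                rcases Nat.le_succ_iff.1 hi with h3 | h3
                · exact hn' i h3 h
                · rw [h3] at h; exact absurd h h0
          obtain ⟨n', hn'⟩ := hone (g L)
          refine ⟨max n n', fun l hl => ?_⟩
          rcases Nat.lt_succ_iff_lt_or_eq.1 hl with h | h
          · exact (hn l h).trans (hCmono j _ _ (le_max_left _ _))
          · intro i hi
            rw [h] at hi
            exact hCmono j _ _ (le_max_right _ _) (hn' i hi.2 hi.1)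
      obtain ⟨n, hn⟩ := hfin (j + 1)
      refine ⟨max n (z j), fun i hi => ?_⟩
      obtain ⟨l, hl⟩ := mem_iUnion.1 hi
      by_cases hlj : l < j + 1
      · exact hCmono j _ _ (le_max_left _ _) (hn l hlj hl)
      · exact hCmono j _ _ (le_max_right _ _) (hl.1.2 j (by omega))
    choose h hh using hHg
    refine ⟨ε, hε, h, fun K => ?_⟩
    have hbad : ∀ l, ∃ i, i ∈ W z l ∧ ∀ w ∈ K.1, ε < ‖d i - w‖ := by
      intro l
      obtain ⟨i, hi, hi2⟩ := hz l K
      exact ⟨i, hi, hi2⟩
    choose u hu using hbad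
    refine ⟨u, fun g hg => fun l => ?_⟩
    by_contra hlt
    have hle : u l ≤ g l := (not_le.1 hlt).le
    have hmem : u l ∈ Hg g := mem_iUnion.2 ⟨l, (hu l).1, hle⟩
    obtain ⟨w, hw, hw2⟩ := hg _ (hh g _ hmem)
    exact absurd hw2 (not_le.2 ((hu l).2 w hw))

end Pool.Agent.Helper26.TK
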