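import Pool.Agent.Helper26.TK.PfR4

/-!
Packet R7a: analysis of the infinite game.
-/

namespace Pool.Agent.Helper26.TK

open Set Filter Topology MeasureTheory Cardinal

/-- `start` in terms of the moves of player I. -/
def st (u : ℕ → ℕ) : ℕ → ℕ
  | 0 => 0
  | t + 1 => if u t ≠ 0 then t else st u t

theorem start_eq (x : ℕ → ℕ) (t : ℕ) : start x t = st (fun t => x (2 * t)) t := by
  induction t with
  | zero => rfl
  | succ t ih => simp only [start, st, ih]

theorem st_le (u : ℕ → ℕ) (t : ℕ) : st u t ≤ t := by
  induction t with
  | zero => exact le_rfl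
  | succ t ih =>
    simp only [st]
    split_ifs <;> omega

theorem st_const {u : ℕ → ℕ} {a b : ℕ} (hab : a ≤ b) (h : ∀ t, a ≤ t → t < b → u t = 0) :
    st u b = st u a := by
  induction b, hab using Nat.le_induction with
  | base => rfl
  | succ b hb ih =>
    have h1 : u b = 0 := h b hb (Nat.lt_succ_self b)
    simp only [st, h1, ne_eq, not_true_eq_false, if_false]
    exact ih (fun t h2 h3 => h t h2 (by omega))

theorem st_pick {u : ℕ → ℕ} {a : ℕ} (h : u a ≠ 0) : st u (a + 1) = a := by
  simp [st, h]

theorem playII_even (τ : List ℕ → ℕ) (y : ℕ → ℕ) (t : ℕ) : playII τ y (2 * t) = y t := by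
  simp [playII]

theorem playII_odd (τ : List ℕ → ℕ) (y : ℕ → ℕ) (t : ℕ) :
    playII τ y (2 * t + 1) = τ (pre y (t + 1)) := by
  have h1 : (2 * t + 1) % 2 = 1 := by omega
  have h2 : (2 * t + 1) / 2 = t := by omega
  simp [playII, h1, h2]

theorem playI_even (σ : List ℕ → ℕ) (y : ℕ → ℕ) (t : ℕ) : playI σ y (2 * t) = σ (pre y t) := by
  simp [playI]

theorem playI_odd (σ : List ℕ → ℕ) (y : ℕ → ℕ) (t : ℕ) : playI σ y (2 * t + 1) = y t := by
  have h1 : (2 * t + 1) % 2 = 1 := by omega
  have h2 : (2 * t + 1) / 2 = t := by omega
  simp [playI, h1, h2]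

/-- The limit of an increasing sequence of lists. -/
theorem exists_limit (P : ℕ → List ℕ) (hP : ∀ n, P n <+: P (n + 1)) (hlen : ∀ n, n ≤ (P n).length) :
    ∃ y : ℕ → ℕ, ∀ n, pre y (P n).length = P n := by
  have hpre : ∀ n m, n ≤ m → P n <+: P m := by
    intro n m hnm
    induction m, hnm using Nat.le_induction with
    | base => exact List.prefix_rfl
    | succ m _ ih => exact ih.trans (hP m)
  refine ⟨fun i => (P (i + 1)).getD i 0, fun n => ?_⟩
  apply List.ext_getElem
  · rw [pre_length]
  · intro i h1 h2
    have h3 : (pre (fun i => (P (i + 1)).getD i 0) (P n).length)[i] = (P (i + 1)).getD i 0 := by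
      simp [pre]
    rw [h3]
    have h4 : i < (P (i + 1)).length := lt_of_lt_of_le (Nat.lt_succ_self i) (hlen _)
    rw [List.getD_eq_getElem _ _ h4]
    rcases le_total (i + 1) n with h | h
    · exact (hpre _ _ h).getElem h4
    · exact ((hpre _ _ h).getElem h2).symm

theorem pre_take {y : ℕ → ℕ} {n m : ℕ} (h : n ≤ m) : (pre y m).take n = pre y n := by
  unfold pre
  rw [← List.map_take, List.take_range, min_eq_left h]

theorem pre_add (y : ℕ → ℕ) (n m : ℕ) : pre y (n + m) = pre y n ++ pre (fun i => y (n + i)) m := by
  unfold pre
  rw [List.range_add, List.map_append, List.map_map]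
  rfl

theorem pre_prefix_of_append {y : ℕ → ℕ} {p q : List ℕ} (h : pre y (p ++ q).length = p ++ q) :
    pre y p.length = p := by
  have h1 : (pre y (p ++ q).length).take p.length = pre y p.length :=
    pre_take (by simp)
  rw [h] at h1
  rw [← h1]
  simp

section caseII

variable (τ : List ℕ → ℕ)

/-- The set declared by `τ` when player I waits forever after `p`. -/
def Cset (p : List ℕ) : Set ℕ := {i | τ (p ++ List.replicate i 0) ≠ 0}

/-- Legal positions at the start of a round. -/
inductive Leg : List ℕ → Prop
  | base : Leg [0]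
  | step (q : List ℕ) (k : ℕ) (hq : Leg q) (hk : k ∉ Cset τ q) :
      Leg (q ++ List.replicate k 0 ++ [k + 1])

/-- The legality clause at time `t`. -/
def Cl (y : ℕ → ℕ) (t : ℕ) : Prop :=
  y t ≠ 0 → y t - 1 < t - st y t ∧ τ (pre y (st y t + (y t - 1) + 1)) = 0

theorem Leg_inv {p : List ℕ} (hp : Leg τ p) : ∀ y : ℕ → ℕ, pre y p.length = p →
    (∀ t < p.length, Cl τ y t) ∧ st y p.length = p.length - 1 ∧ 1 ≤ p.length := by
  induction hp with
  | base =>
    intro y hy
    have h0 : y 0 = 0 := by
      simpa [pre] using hy
    refine ⟨fun t ht => ?_, ?_, by simp⟩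
    · have : t = 0 := by simpa using ht
      subst this
      intro h
      exact absurd h0 h
    · simp [st, h0]
  | step q k hq hk ih =>
    intro y hy
    have hyq' : pre y (q ++ List.replicate k 0).length = q ++ List.replicate k 0 :=
      pre_prefix_of_append hy
    have hyq : pre y q.length = q := pre_prefix_of_append hyq'
    obtain ⟨h1, h2, h3⟩ := ih y hyq
    have hlen' : (q ++ List.replicate k 0).length = q.length + k := by simp
    have hlen : (q ++ List.replicate k 0 ++ [k + 1]).length = q.length + k + 1 := by
      simp only [List.length_append, List.length_replicate, List.length_singleton]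
    -- values of y
    have hzero : ∀ t, q.length ≤ t → t < q.length + k → y t = 0 := by
      intro t ht1 ht2
      have h4 : (pre y (q ++ List.replicate k 0).length)[t]? = (q ++ List.replicate k 0)[t]? := by
        rw [hyq']
      rw [hlen'] at h4
      rw [List.getElem?_append_right ht1] at h4
      have h5 : (pre y (q.length + k))[t]? = some (y t) := by
        simp [pre, ht2]
      rw [h5] at h4
      have h6 : (List.replicate k 0)[t - q.length]? = some 0 := by
        rw [List.getElem?_replicate]
        rw [if_pos (by omega)]
      rw [h6] at h4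
      exact Option.some.inj h4
    have hlast : y (q.length + k) = k + 1 := by
      have h4 : (pre y (q ++ List.replicate k 0 ++ [k + 1]).length)[q.length + k]? =
        (q ++ List.replicate k 0 ++ [k + 1])[q.length + k]? := by rw [hy]
      rw [hlen] at h4
      rw [List.getElem?_append_right (by simp)] at h4
      have h5 : (pre y (q.length + k + 1))[q.length + k]? = some (y (q.length + k)) := by
        simp [pre]
      rw [h5] at h4
      simpa using h4
    have hst : st y (q.length + k) = q.length - 1 := by
      rw [st_const (Nat.le_add_right _ _) hzero, h2]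
    refine ⟨fun t ht => ?_, ?_, by rw [hlen]; omega⟩
    · rw [hlen] at ht
      rcases lt_or_ge t q.length with h4 | h4
      · exact h1 t h4
      · rcases lt_or_ge t (q.length + k) with h5 | h5
        · intro h
          exact absurd (hzero t h4 h5) h
        · have h6 : t = q.length + k := by omega
          subst h6
          intro _
          rw [hlast, hst]
          constructor
          · omega
          · have h7 : q.length - 1 + (k + 1 - 1) + 1 = (q ++ List.replicate k 0).length := by
              rw [hlen']; omega
            rw [h7, hyq']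
            by_contra h8
            exact hk h8
    · rw [hlen, st_pick (by rw [hlast]; omega)]
      omega

theorem cons_prefix_aux (q : List ℕ) (k : ℕ) : q <+: q ++ List.replicate k 0 ++ [k + 1] :=
  ⟨List.replicate k 0 ++ [k + 1], by rw [List.append_assoc]⟩

theorem caseII {J W : Set ℕ → Prop} (hW : ∀ A B : Set ℕ, A ⊆ B → W B → W A)
    (hτ : ∀ y, playII τ y ∉ Pay J W) :
    ∃ C : ℕ → Set ℕ, (∀ n, J (C n)) ∧ ∀ A, W A → ∃ n, A ⊆ C n := by
  classical
  -- J holds for the sets of legal positions
  have hJ : ∀ p, Leg τ p → J (Cset τ p) := by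
    intro p hp
    by_contra hnJ
    let y : ℕ → ℕ := fun i => p.getD i 0
    have hy : pre y p.length = p := by
      apply List.ext_getElem
      · rw [pre_length]
      · intro i h1 h2
        have h3 : (pre y p.length)[i] = y i := by simp [pre]
        rw [h3]
        exact List.getD_eq_getElem _ _ h2
    obtain ⟨h1, h2, h3⟩ := Leg_inv τ hp y hy
    have hy0 : ∀ t, p.length ≤ t → y t = 0 := by
      intro t ht
      exact List.getD_eq_default _ _ ht
    have hpre : ∀ i, pre y (p.length + i) = p ++ List.replicate i 0 := by
      intro i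
      rw [pre_add, hy]
      congr 1
      unfold pre
      apply List.ext_getElem
      · simp
      · intro j h4 h5
        simp [hy0]
    apply hτ y
    refine ⟨fun t ht => ?_, Or.inr ⟨p.length, fun t ht => ?_, ?_⟩⟩
    · rw [playII_even] at ht ⊢
      rw [start_eq]
      simp only [playII_even]
      rw [playII_odd]
      by_cases htp : t < p.length
      · exact h1 t htp ht
      · exact absurd (hy0 t (not_lt.1 htp)) ht
    · rw [playII_even]
      exact hy0 t ht
    · rw [start_eq]
      simp only [playII_even]
      have h4 : st (fun t => y t) p.length = p.length - 1 := h2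
      rw [h4]
      have h5 : {i | playII τ y (2 * (p.length - 1 + i) + 1) ≠ 0} = Cset τ p := by
        ext i
        simp only [mem_ofPred_eq, Cset]
        rw [playII_odd]
        have h6 : p.length - 1 + i + 1 = p.length + i := by omega
        rw [h6, hpre]
      rw [h5]
      exact hnJ
  let C : ℕ → Set ℕ := fun n => if Leg τ (Denumerable.ofNat (List ℕ) n) then
    Cset τ (Denumerable.ofNat (List ℕ) n) else Cset τ [0]
  refine ⟨C, fun n => ?_, fun A hA => ?_⟩
  · simp only [C]
    split_ifs with h
    · exact hJ _ h
    · exact hJ _ Leg.base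
  · by_contra hcon
    push Not at hcon
    have hex : ∀ p, Leg τ p → ∃ k ∈ A, k ∉ Cset τ p := by
      intro p hp
      have h1 := hcon (Encodable.encode p)
      have h2 : Denumerable.ofNat (List ℕ) (Encodable.encode p) = p := Denumerable.ofNat_encode _
      simp only [C, h2, if_pos hp] at h1
      exact not_subset.1 h1
    choose! k hkA hkC using hex
    let P : ℕ → List ℕ := fun n => Nat.rec [0]
      (fun _ q => q ++ List.replicate (k q) 0 ++ [k q + 1]) n
    have hP0 : P 0 = [0] := rfl
    have hPs : ∀ n, P (n + 1) = P n ++ List.replicate (k (P n)) 0 ++ [k (P n) + 1] := fun n => rfl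
    have hLeg : ∀ n, Leg τ (P n) := by
      intro n
      induction n with
      | zero => exact Leg.base
      | succ n ih => rw [hPs]; exact Leg.step _ _ ih (hkC _ ih)
    have hlen : ∀ n, n ≤ (P n).length := by
      intro n
      induction n with
      | zero => exact Nat.zero_le _
      | succ n ih => rw [hPs]; simp; omega
    obtain ⟨y, hy⟩ := exists_limit P (fun n => by rw [hPs]; exact cons_prefix_aux _ _) hlen
    -- entries
    have hent : ∀ n, ∀ m ∈ P n, m ≠ 0 → m - 1 ∈ A := by
      intro n
      induction n with
      | zero =>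
        intro m hm hm0
        rw [hP0] at hm
        exact absurd (List.mem_singleton.1 hm) hm0
      | succ n ih =>
        intro m hm hm0
        rw [hPs] at hm
        rcases List.mem_append.1 hm with hm | hm
        · rcases List.mem_append.1 hm with hm | hm
          · exact ih m hm hm0
          · exact absurd (List.eq_of_mem_replicate hm) hm0
        · rw [List.mem_singleton.1 hm]
          exact hkA _ (hLeg n)
    apply hτ y
    refine ⟨fun t ht => ?_, Or.inl ⟨fun N => ?_, ?_⟩⟩
    · rw [playII_even] at ht ⊢
      rw [start_eq]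
      simp only [playII_even]
      rw [playII_odd]
      exact (Leg_inv τ (hLeg (t + 1)) y (hy (t + 1))).1 t
        (lt_of_lt_of_le (Nat.lt_succ_self t) (hlen _)) ht
    · -- a pick after N
      refine ⟨(P (N + 1)).length - 1, ?_, ?_⟩
      · have := hlen (N + 1)
        show N ≤ (P (N + 1)).length - 1
        omega
      · rw [playII_even]
        have h1 := hy (N + 1)
        have h2 : (P (N + 1)).length = (P N).length + k (P N) + 1 := by
          rw [hPs]
          simp only [List.length_append, List.length_replicate, List.length_singleton]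
        have h3 : (pre y (P (N + 1)).length)[(P N).length + k (P N)]? =
            (P (N + 1))[(P N).length + k (P N)]? := by rw [h1]
        have h4 : (pre y (P (N + 1)).length)[(P N).length + k (P N)]? =
            some (y ((P N).length + k (P N))) := by
          rw [h2]
          simp [pre]
        have h5 : (P (N + 1))[(P N).length + k (P N)]? = some (k (P N) + 1) := by
          rw [hPs, List.getElem?_append_right (by simp)]
          simp
        rw [h4, h5] at h3
        have h6 : (P (N + 1)).length - 1 = (P N).length + k (P N) := by omega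
        rw [h6, Option.some.inj h3]
        omega
    · refine hW _ A ?_ hA
      rintro m ⟨t, ht⟩
      rw [playII_even] at ht
      have h1 : y t ∈ P (t + 1) := by
        rw [← hy (t + 1)]
        unfold pre
        exact List.mem_map.2 ⟨t, List.mem_range.2 (lt_of_lt_of_le (Nat.lt_succ_self t) (hlen _)), rfl⟩
      have h0 : y t ≠ 0 := by
        rw [ht]; exact Nat.succ_ne_zero m
      have h2 := hent (t + 1) (y t) h1 h0
      rw [ht] at h2
      simpa using h2

end caseII

section caseI

variable (σ : List ℕ → ℕ)

/-- The possible next picks from the start position `p`. -/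
def Sset (p : List ℕ) : Set ℕ :=
  {k | ∃ b : List ℕ, 1 ≤ b.length ∧ (∀ i, 1 ≤ i → i < b.length → σ (p ++ b.take i) = 0) ∧
    σ (p ++ b) = k + 1}

theorem not_J_Sset {J W : Set ℕ → Prop} (hσ : ∀ y, playI σ y ∈ Pay J W) (p : List ℕ)
    (hp : p = [] ∨ σ p ≠ 0) : ¬ J (Sset σ p) := by
  classical
  intro hJ
  set C := Sset σ p with hC
  let y : ℕ → ℕ := fun i => if i < p.length then p.getD i 0 else if i - p.length ∈ C then 1 else 0
  have hy : pre y p.length = p := by
    apply List.ext_getElem
    · rw [pre_length]
    · intro i h1 h2
      simp [pre, y, h2]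
  have hyC : ∀ i, y (p.length + i) ≠ 0 ↔ i ∈ C := by
    intro i
    simp only [y]
    rw [if_neg (by omega)]
    have : p.length + i - p.length = i := by omega
    rw [this]
    split_ifs with h <;> simp [h]
  have hplay := hσ y
  obtain ⟨hleg, hpay⟩ := hplay
  -- start values
  have hst0 : ∀ t, p.length < t → (∀ t', p.length < t' → t' < t → σ (pre y t') = 0) →
      start (playI σ y) t = p.length := by
    intro t ht hz
    rw [start_eq]
    simp only [playI_even]
    have h1 : st (fun t => σ (pre y t)) t = st (fun t => σ (pre y t)) (p.length + 1) := by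
      refine st_const (by omega) (fun t' h2 h3 => hz t' (by omega) h3)
    rw [h1]
    rcases hp with hp | hp
    · subst hp
      simp only [List.length_nil, st]
      split_ifs <;> rfl
    · refine st_pick ?_
      show σ (pre y p.length) ≠ 0
      rw [hy]
      exact hp
  by_cases hex : ∃ m, 1 ≤ m ∧ σ (pre y (p.length + m)) ≠ 0
  · -- the least such m
    let m := Nat.find hex
    obtain ⟨hm1, hm2⟩ := Nat.find_spec hex
    have hmin : ∀ i, 1 ≤ i → i < m → σ (pre y (p.length + i)) = 0 := by
      intro i h1 h2
      by_contra h3
      exact Nat.find_min hex h2 ⟨h1, h3⟩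
    have hstart : start (playI σ y) (p.length + m) = p.length := by
      refine hst0 _ (by omega) (fun t' h1 h2 => ?_)
      have := hmin (t' - p.length) (by omega) (by omega)
      rwa [show p.length + (t' - p.length) = t' by omega] at this
    have h1 := hleg (p.length + m) (by rw [playI_even]; exact hm2)
    rw [playI_even, hstart, playI_odd] at h1
    set k := σ (pre y (p.length + m)) - 1 with hk
    have hkC : k ∉ C := by
      intro h
      exact (hyC k).2 h h1.2
    apply hkC
    refine ⟨pre (fun i => y (p.length + i)) m, by rw [pre_length]; exact hm1, fun i h2 h3 => ?_, ?_⟩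
    · rw [pre_length] at h3
      rw [pre_take h3.le]
      have h4 := hmin i h2 h3
      rwa [pre_add, hy] at h4
    · have h4 : σ (pre y (p.length + m)) = k + 1 := by
        have : σ (pre y (p.length + m)) ≠ 0 := hm2
        omega
      rwa [pre_add, hy] at h4
  · push Not at hex
    have hz : ∀ t, p.length < t → σ (pre y t) = 0 := by
      intro t ht
      have := hex (t - p.length) (by omega)
      rwa [show p.length + (t - p.length) = t by omega] at this
    rcases hpay with ⟨hinf, -⟩ | ⟨N, hN, hnJ⟩
    · obtain ⟨t, ht, ht2⟩ := hinf (p.length + 1)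
      rw [playI_even] at ht2
      exact ht2 (hz t (by omega))
    · apply hnJ
      have hst : start (playI σ y) N = p.length := by
        rcases lt_or_ge p.length N with h | h
        · exact hst0 N h (fun t' h1 _ => hz t' h1)
        · rcases hp with hp | hp
          · subst hp
            have : N = 0 := by simpa using h
            rw [this]; rfl
          · have h1 := hN p.length h
            rw [playI_even, hy] at h1
            exact absurd h1 hp
      rw [hst]
      have h1 : {i | playI σ y (2 * (p.length + i) + 1) ≠ 0} = C := by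
        ext i
        simp only [mem_ofPred_eq]
        rw [playI_odd]
        exact hyC i
      rw [h1]
      exact hJ

theorem caseI {J W : Set ℕ → Prop} (hW : ∀ A B : Set ℕ, A ⊆ B → W B → W A)
    (hσ : ∀ y, playI σ y ∈ Pay J W) (sel : Set ℕ → ℕ → ℕ)
    (hsel : ∀ S, ¬ J S → ∀ k, sel S k ∈ S) :
    ∃ a : List ℕ → ℕ, (∀ t : List ℕ, ∃ S, ¬ J S ∧ ∀ k, a (k :: t) = sel S k) ∧
      ∀ y : ℕ → ℕ, W (Set.range fun n : ℕ => a (rp y (n + 1))) := by
  classical
  have hb : ∀ (p : List ℕ) (k : ℕ), ∃ b : List ℕ, k ∈ Sset σ p → 1 ≤ b.length ∧
      σ (p ++ b) = k + 1 := by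
    intro p k
    by_cases h : k ∈ Sset σ p
    · obtain ⟨b, h1, -, h2⟩ := h
      exact ⟨b, fun _ => ⟨h1, h2⟩⟩
    · exact ⟨[], fun h' => absurd h' h⟩
  choose b hb using hb
  let pos : List ℕ → List ℕ := fun t => List.rec []
    (fun k _ p => p ++ b p (sel (Sset σ p) k)) t
  have hpos0 : pos [] = [] := rfl
  have hposs : ∀ k t, pos (k :: t) = pos t ++ b (pos t) (sel (Sset σ (pos t)) k) := fun k t => rfl
  have hstart : ∀ t, pos t = [] ∨ σ (pos t) ≠ 0 := by
    intro t
    induction t with
    | nil => exact Or.inl rfl
    | cons k t ih =>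
      right
      rw [hposs]
      have h1 := not_J_Sset σ hσ (pos t) ih
      rw [(hb _ _ (hsel _ h1 k)).2]
      omega
  have hnJ : ∀ t, ¬ J (Sset σ (pos t)) := fun t => not_J_Sset σ hσ (pos t) (hstart t)
  let a : List ℕ → ℕ := fun t => match t with
    | [] => 0
    | k :: t => sel (Sset σ (pos t)) k
  have ha : ∀ k t, σ (pos (k :: t)) = a (k :: t) + 1 := by
    intro k t
    rw [hposs]
    exact (hb _ _ (hsel _ (hnJ t) k)).2
  refine ⟨a, fun t => ⟨Sset σ (pos t), hnJ t, fun k => rfl⟩, fun y => ?_⟩
  have hlen : ∀ n, n ≤ (pos (rp y n)).length := by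
    intro n
    induction n with
    | zero => exact Nat.zero_le _
    | succ n ih =>
      rw [rp_succ, hposs, List.length_append]
      have := (hb _ _ (hsel _ (hnJ (rp y n)) (y n))).1
      omega
  obtain ⟨Y, hY⟩ := exists_limit (fun n => pos (rp y n)) (fun n => by
    show pos (rp y n) <+: pos (rp y (n + 1))
    rw [rp_succ, hposs]
    exact List.prefix_append _ _) hlen
  have hpick : ∀ n, playI σ Y (2 * (pos (rp y (n + 1))).length) = a (rp y (n + 1)) + 1 := by
    intro n
    rw [playI_even]
    have h1 : pre Y (pos (rp y (n + 1))).length = pos (rp y (n + 1)) := hY (n + 1)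
    rw [h1, rp_succ]
    exact ha _ _
  obtain ⟨-, hpay⟩ := hσ Y
  rcases hpay with ⟨-, hWp⟩ | ⟨N, hN, -⟩
  · refine hW _ _ ?_ hWp
    rintro _ ⟨n, rfl⟩
    exact ⟨_, hpick n⟩
  · exfalso
    have h1 := hpick N
    have h2 : N ≤ (pos (rp y (N + 1))).length := (Nat.le_succ N).trans (hlen (N + 1))
    rw [hN _ h2] at h1
    omega

end caseI

theorem stmtR7a : StmtR7a := by
  intro J W hW hdet
  rcases hdet with ⟨σ, hσ⟩ | ⟨τ, hτ⟩
  · right
    intro sel hsel
    exact caseI σ hW hσ sel hsel
  · left
    exact caseII τ hW hτ

end Pool.Agent.Helper26.TK
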