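import Pool.Agent.Helper26.TK.Pos

/-!
Packet R8: approximation by parts of a dense sequence.
-/

namespace Pool.Agent.Helper26.TK

open Set Filter Topology MeasureTheory Cardinal

theorem Sep.dist_le {X : Type} [NormedAddCommGroup X] [NormedSpace ℝ X] {δ : ℝ} {x : ℕ → X}
    (h : Sep δ x) {i j : ℕ} (hij : i < j) : δ ≤ ‖x i - x j‖ :=
  h j _ (subset_convexHull ℝ _ ⟨i, Set.mem_Iio.2 hij, rfl⟩) _ (subset_convexHull ℝ _ ⟨j, Set.mem_Ici.2 le_rfl, rfl⟩)

theorem stmtR8 (hR1 : StmtR1) (hR2 : StmtR2) : StmtR8 := by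
  classical
  intro X _ _ _ d hd hdense L ε hε
  by_cases hL : L.1.Nonempty
  · -- a dense sequence in `L`
    have hsep : ∃ w : ℕ → X, (∀ m, w m ∈ L.1) ∧ ∀ v ∈ L.1, ∀ η : ℝ, 0 < η → ∃ m, ‖v - w m‖ ≤ η := by
      obtain ⟨v0, hv0⟩ := hL
      -- choose near points for pairs (n, k)
      have hch : ∀ p : ℕ × ℕ, ∃ w, w ∈ L.1 ∧ ((∃ v ∈ L.1, ‖v - d p.1‖ ≤ 1 / ((p.2 : ℝ) + 1)) →
          ‖w - d p.1‖ ≤ 1 / ((p.2 : ℝ) + 1)) := by
        intro p
        by_cases hp : ∃ v ∈ L.1, ‖v - d p.1‖ ≤ 1 / ((p.2 : ℝ) + 1)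
        · obtain ⟨v, hv, hv2⟩ := hp
          exact ⟨v, hv, fun _ => hv2⟩
        · exact ⟨v0, hv0, fun h => absurd h hp⟩
      choose w hw hw2 using hch
      refine ⟨fun m => w (Nat.unpair m), fun m => hw _, fun v hv η hη => ?_⟩
      obtain ⟨k, hk⟩ := exists_nat_one_div_lt (show (0 : ℝ) < η / 2 by positivity)
      have hv1 : ‖v‖ ≤ 1 := mem_closedBall_zero_iff.1 (L.2.1 hv)
      obtain ⟨n, hn⟩ := hdense v hv1 (1 / ((k : ℝ) + 1)) (by positivity)
      refine ⟨Nat.pair n k, ?_⟩
      have h1 := hw2 (n, k) ⟨v, hv, hn⟩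
      simp only [Nat.unpair_pair]
      calc ‖v - w (n, k)‖ = ‖(v - d n) - (w (n, k) - d n)‖ := by congr 1; abel
        _ ≤ ‖v - d n‖ + ‖w (n, k) - d n‖ := norm_sub_le _ _
        _ ≤ 1 / ((k : ℝ) + 1) + 1 / ((k : ℝ) + 1) := add_le_add hn h1
        _ ≤ η := by linarith
    obtain ⟨w, hwL, hwd⟩ := hsep
    have hi : ∀ m : ℕ, ∃ i, ‖w m - d i‖ ≤ min (ε / 2) (1 / ((m : ℝ) + 1)) := by
      intro m
      exact hdense _ (mem_closedBall_zero_iff.1 (L.2.1 (hwL m))) _
        (lt_min (by positivity) (by positivity))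
    choose i hi using hi
    refine ⟨Set.range i, ?_, fun v hv => ?_⟩
    · apply hR1 X d hd
      rintro δ hδ ⟨s, hs, hsep⟩
      choose m hm using hs
      have hfin := hR2 X L.1 L.2.2 δ hδ _ hsep
      -- m is injective
      have hinj : Function.Injective m := by
        intro a b hab
        by_contra hne
        have hsab : s a = s b := by rw [← hm a, ← hm b, hab]
        rcases lt_or_gt_of_ne hne with h | h
        · have := hsep.dist_le h
          simp only [hsab, sub_self, norm_zero] at this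
          linarith
        · have := hsep.dist_le h
          simp only [hsab, sub_self, norm_zero] at this
          linarith
      obtain ⟨N, hN⟩ := exists_nat_one_div_lt (show (0 : ℝ) < δ / 4 by positivity)
      have hcof : {k : ℕ | ¬ N ≤ m k}.Finite := by
        have : {k : ℕ | ¬ N ≤ m k} ⊆ m ⁻¹' (Set.Iio N) := by
          intro k hk
          simpa using hk
        exact ((Set.finite_Iio N).preimage hinj.injOn).subset this
      have hall : (Set.univ : Set ℕ) ⊆ {k : ℕ | ¬ N ≤ m k} ∪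
          {k : ℕ | ∃ w ∈ L.1, ‖d (s k) - w‖ ≤ δ / 4} := by
        intro k _
        by_cases hk : N ≤ m k
        · right
          refine ⟨w (m k), hwL _, ?_⟩
          rw [← hm k, norm_sub_rev]
          refine ((hi (m k)).trans (min_le_right _ _)).trans ?_
          have h1 : 1 / ((m k : ℝ) + 1) ≤ 1 / ((N : ℝ) + 1) := by
            apply one_div_le_one_div_of_le (by positivity)
            have : (N : ℝ) ≤ m k := by exact_mod_cast hk
            linarith
          linarith
        · left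
          exact hk
      exact Set.infinite_univ ((hcof.union hfin).subset hall)
    · obtain ⟨m, hm⟩ := hwd v hv (ε / 2) (by positivity)
      refine ⟨i m, ⟨m, rfl⟩, ?_⟩
      calc ‖v - d (i m)‖ = ‖(v - w m) + (w m - d (i m))‖ := by congr 1; abel
        _ ≤ ‖v - w m‖ + ‖w m - d (i m)‖ := norm_add_le _ _
        _ ≤ ε / 2 + ε / 2 := add_le_add hm ((hi m).trans (min_le_left _ _))
        _ = ε := by ring
  · refine ⟨∅, ⟨L, fun n hn => absurd hn (Set.notMem_empty n)⟩, fun v hv => ?_⟩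
    exact absurd ⟨v, hv⟩ hL

end Pool.Agent.Helper26.TK
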