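import Pool.Agent.Helper26.TK.Space

/-!
Positive results on the Tukey dichotomy: definitions and exact statements (as Props).
-/

namespace Pool.Agent.Helper26.TK

open Set Filter Topology MeasureTheory Cardinal

/-! ### Convexly separated sequences -/

/-- The convex hulls of the initial and of the final segments of `x` have distance at least
`δ`. -/
def Sep {X : Type} [NormedAddCommGroup X] [NormedSpace ℝ X] (δ : ℝ) (x : ℕ → X) : Prop :=
  ∀ k : ℕ, ∀ u ∈ convexHull ℝ (x '' Set.Iio k), ∀ v ∈ convexHull ℝ (x '' Set.Ici k),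
    δ ≤ ‖u - v‖

/-- `A` is an index set of a relatively weakly compact part of the sequence `d`. -/
def WC {X : Type} [NormedAddCommGroup X] [NormedSpace ℝ X] (d : ℕ → X) (A : Set ℕ) : Prop :=
  ∃ K : WKB X, ∀ n ∈ A, d n ∈ K.1

/-- No sequence of members of `d` with indices in `A` is `δ`-separated. -/
def JJ {X : Type} [NormedAddCommGroup X] [NormedSpace ℝ X] (d : ℕ → X) (δ : ℝ)
    (A : Set ℕ) : Prop :=
  ¬ ∃ s : ℕ → ℕ, (∀ i, s i ∈ A) ∧ Sep δ (fun i => d (s i))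

/-- Packet R1. -/
def StmtR1 : Prop :=
  ∀ (X : Type) [NormedAddCommGroup X] [NormedSpace ℝ X] [CompleteSpace X] (d : ℕ → X),
    (∀ n, ‖d n‖ ≤ 1) → ∀ A : Set ℕ, (∀ δ : ℝ, 0 < δ → JJ d δ A) → WC d A

/-- Packet R2. -/
def StmtR2 : Prop :=
  ∀ (X : Type) [NormedAddCommGroup X] [NormedSpace ℝ X] (K : Set X),
    IsCompact ((toWeakSpace ℝ X) '' K) → ∀ (δ : ℝ), 0 < δ → ∀ (x : ℕ → X), Sep δ x →
      {i : ℕ | ∃ w ∈ K, ‖x i - w‖ ≤ δ / 4}.Finite

/-- The reversed list of the first `n` values of `y`. -/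
def rp (y : ℕ → ℕ) (n : ℕ) : List ℕ := ((List.range n).map y).reverse

/-- A tree whose nodes have `δ`-separated sequences of successors and all of whose branches are
relatively weakly compact. -/
def TreeWit {X : Type} [NormedAddCommGroup X] [NormedSpace ℝ X] (d : ℕ → X) (δ : ℝ) : Prop :=
  ∃ a : List ℕ → ℕ, (∀ t : List ℕ, Sep δ (fun k => d (a (k :: t)))) ∧
    ∀ y : ℕ → ℕ, WC d (Set.range fun n : ℕ => a (rp y (n + 1)))

/-- Packet R3. -/
def StmtR3 : Prop :=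
  ∀ (X : Type) [NormedAddCommGroup X] [NormedSpace ℝ X] (d : ℕ → X) (δ : ℝ), 0 < δ →
    TreeWit d δ → AKAbove X (ℕ → ℕ)

/-- Packet R4: analytic families. -/
def StmtR4 : Prop :=
  ∀ (X : Type) [NormedAddCommGroup X] [NormedSpace ℝ X] (d : ℕ → X) (δ : ℝ),
    ∀ F : (ℕ → ℕ) → (ℕ → Bool), Continuous F → (∀ z, WC d {n | F z n = true}) →
      TreeWit d δ ∨ ∃ C : ℕ → Set ℕ, (∀ n, JJ d δ (C n)) ∧ ∀ z, ∃ n, {i | F z i = true} ⊆ C n

/-- Packet R5: sets with an `ω^ω`-base. -/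
def StmtR5 : Prop :=
  ∀ (X : Type) [NormedAddCommGroup X] [NormedSpace ℝ X] [CompleteSpace X] (d : ℕ → X),
    (∀ n, ‖d n‖ ≤ 1) → ∀ C : ℕ → ℕ → Set ℕ, (∀ j n : ℕ, JJ d (1 / ((j : ℝ) + 1)) (C j n)) →
      ∀ ε : ℝ, 0 < ε → AKAbove X (ℕ → ℕ) ∨
        ∃ K : ℕ → WKB X, ∀ A : Set ℕ, (∀ j, ∃ n, A ⊆ C j n) →
          ∃ m, ∀ i ∈ A, ∃ w ∈ (K m).1, ‖d i - w‖ ≤ ε

/-- Packet R6: the relatively weakly compact sets form a union of at most `ℵ₁` analytic
families. -/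
def StmtR6 : Prop :=
  ∀ (X : Type) [NormedAddCommGroup X] [NormedSpace ℝ X] [CompleteSpace X] (d : ℕ → X),
    (∀ n, ‖d n‖ ≤ 1) →
      ∃ (E : Type) (G : E → (ℕ → ℕ) → (ℕ → Bool)), #E ≤ aleph 1 ∧ (∀ e, Continuous (G e)) ∧
        (∀ e z, WC d {n | G e z n = true}) ∧ ∀ A, WC d A → ∃ e z, A = {n | G e z n = true}

/-- Packet R8: weakly compact sets are approximated by relatively weakly compact parts of a
dense sequence. -/
def StmtR8 : Prop :=
  ∀ (X : Type) [NormedAddCommGroup X] [NormedSpace ℝ X] [CompleteSpace X] (d : ℕ → X),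
    (∀ n, ‖d n‖ ≤ 1) → (∀ v : X, ‖v‖ ≤ 1 → ∀ ε : ℝ, 0 < ε → ∃ n, ‖v - d n‖ ≤ ε) →
      ∀ (L : WKB X) (ε : ℝ), 0 < ε → ∃ A : Set ℕ, WC d A ∧ ∀ w ∈ L.1, ∃ i ∈ A, ‖w - d i‖ ≤ ε

/-! ### Games -/

/-- The list of the first `n` values of `y`. -/
def pre (y : ℕ → ℕ) (n : ℕ) : List ℕ := (List.range n).map y

/-- The play in which player I follows `σ` and player II plays `y 0, y 1, ...`. -/
def playI (σ : List ℕ → ℕ) (y : ℕ → ℕ) (n : ℕ) : ℕ :=
  if n % 2 = 0 then σ (pre y (n / 2)) else y (n / 2)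

/-- The play in which player I plays `y 0, y 1, ...` and player II follows `τ`. -/
def playII (τ : List ℕ → ℕ) (y : ℕ → ℕ) (n : ℕ) : ℕ :=
  if n % 2 = 0 then y (n / 2) else τ (pre y (n / 2 + 1))

/-- The infinite game on `ℕ` with payoff set `A` for player I is determined. -/
def Determined (A : Set (ℕ → ℕ)) : Prop :=
  (∃ σ : List ℕ → ℕ, ∀ y, playI σ y ∈ A) ∨ ∃ τ : List ℕ → ℕ, ∀ y, playII τ y ∉ A

/-- Boolean combinations of analytic sets. -/
inductive BoolAn : Set (ℕ → ℕ) → Prop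
  | an (s : Set (ℕ → ℕ)) (h : AnalyticSet s) : BoolAn s
  | compl (s : Set (ℕ → ℕ)) (h : BoolAn s) : BoolAn sᶜ
  | union (s t : Set (ℕ → ℕ)) (hs : BoolAn s) (ht : BoolAn t) : BoolAn (s ∪ t)

/-- The time at which the current round of the game started (the last time before `t` at which
player I picked a number, or `0`). -/
def start (x : ℕ → ℕ) : ℕ → ℕ
  | 0 => 0
  | t + 1 => if x (2 * t) ≠ 0 then t else start x t

/-- The payoff set.  The move `x (2 t) = 0` of player I means waiting, `x (2 t) = k + 1` means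
picking `k`; `x (2 t + 1) ≠ 0` means that player II puts the number `t - start` into the set
`C` of the current round.  Picking `k` is legal if `k` has been declared not to be in `C`. -/
def Pay (J W : Set ℕ → Prop) : Set (ℕ → ℕ) :=
  {x | (∀ t, x (2 * t) ≠ 0 → x (2 * t) - 1 < t - start x t ∧
      x (2 * (start x t + (x (2 * t) - 1)) + 1) = 0) ∧
    (((∀ N, ∃ t ≥ N, x (2 * t) ≠ 0) ∧ W {k | ∃ t, x (2 * t) = k + 1}) ∨
      ∃ N, (∀ t ≥ N, x (2 * t) = 0) ∧ ¬ J {i | x (2 * (start x N + i) + 1) ≠ 0})}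

/-- Packet R7a: analysis of the game. -/
def StmtR7a : Prop :=
  ∀ J W : Set ℕ → Prop, (∀ A B : Set ℕ, A ⊆ B → W B → W A) → Determined (Pay J W) →
    (∃ C : ℕ → Set ℕ, (∀ n, J (C n)) ∧ ∀ A, W A → ∃ n, A ⊆ C n) ∨
    ∀ sel : Set ℕ → ℕ → ℕ, (∀ S, ¬ J S → ∀ k, sel S k ∈ S) →
      ∃ a : List ℕ → ℕ, (∀ t : List ℕ, ∃ S, ¬ J S ∧ ∀ k, a (k :: t) = sel S k) ∧
        ∀ y : ℕ → ℕ, W (Set.range fun n : ℕ => a (rp y (n + 1)))

/-- Packet R7b: complexity of the payoff set. -/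
def StmtR7b : Prop :=
  ∀ (X : Type) [NormedAddCommGroup X] [NormedSpace ℝ X] [CompleteSpace X] (d : ℕ → X),
    (∀ n, ‖d n‖ ≤ 1) → ∀ δ : ℝ, 0 < δ → BoolAn (Pay (JJ d δ) (WC d))

end Pool.Agent.Helper26.TK
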