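import Pool.Agent.Helper26.TK.PosFin
import Pool.Agent.Helper26.TK.PfR2
import Pool.Agent.Helper26.TK.PfR3
import Pool.Agent.Helper26.TK.PfR4
import Pool.Agent.Helper26.TK.PfR5
import Pool.Agent.Helper26.TK.PfR7a
import Pool.Agent.Helper26.TK.PfR8
import Pool.Agent.Helper89.TK.R1
import Pool.Agent.Helper11.TK.R6
import Pool.Agent.Helper11.TK.R7b

/-!
The positive results with all packets inserted.
-/

namespace Pool.Agent.Helper26.TK

open Set MeasureTheory Cardinal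

theorem r1 : StmtR1 := Pool.Agent.Helper89.TK.stmtR1

theorem zfc_all (X : Type) [NormedAddCommGroup X] [NormedSpace ℝ X]
    [CompleteSpace X] [TopologicalSpace.SeparableSpace X] :
    AKAbove X (ℕ → ℕ) ∨ ∀ E : Type, aleph 1 ≤ #E → AKBelow X (Finset E) :=
  zfc_part (stmtR3 stmtR2) stmtR4 (stmtR5 r1) (Pool.Agent.Helper11.TK.stmtR6 r1 stmtR2)
    (stmtR8 r1 stmtR2) X

theorem det_all (hdet : ∀ A : Set (ℕ → ℕ), BoolAn A → Determined A)
    (X : Type) [NormedAddCommGroup X] [NormedSpace ℝ X]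
    [CompleteSpace X] [TopologicalSpace.SeparableSpace X] :
    AKBelow X ℕ ∨ AKAbove X (ℕ → ℕ) :=
  det_part (stmtR3 stmtR2) (stmtR5 r1) stmtR7a (Pool.Agent.Helper11.TK.stmtR7b r1 stmtR2)
    (stmtR8 r1 stmtR2) hdet X

end Pool.Agent.Helper26.TK
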