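import Pool.Agent.Helper26.TK.Pos

/-!
Assembly of the positive results on the Tukey dichotomy.
-/

namespace Pool.Agent.Helper26.TK

open Set Filter Topology MeasureTheory Cardinal

section

variable {X : Type} [NormedAddCommGroup X] [NormedSpace ℝ X]

/-- A dense sequence in the unit ball. -/
theorem exists_dense_seq (X : Type) [NormedAddCommGroup X] [NormedSpace ℝ X]
    [TopologicalSpace.SeparableSpace X] : ∃ d : ℕ → X, (∀ n, ‖d n‖ ≤ 1) ∧
      ∀ v : X, ‖v‖ ≤ 1 → ∀ ε : ℝ, 0 < ε → ∃ n, ‖v - d n‖ ≤ ε := by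
  have h1 : TopologicalSpace.IsSeparable (Metric.closedBall (0 : X) 1) :=
    TopologicalSpace.IsSeparable.of_separableSpace _
  have h2 : TopologicalSpace.SeparableSpace (Metric.closedBall (0 : X) 1) := h1.separableSpace
  have h3 : Nonempty (Metric.closedBall (0 : X) 1) := ⟨⟨0, by simp⟩⟩
  refine ⟨fun n => (TopologicalSpace.denseSeq (Metric.closedBall (0 : X) 1) n : X), fun n => ?_,
    fun v hv ε hε => ?_⟩
  · exact mem_closedBall_zero_iff.1 (TopologicalSpace.denseSeq (Metric.closedBall (0 : X) 1) n).2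
  · have hd := TopologicalSpace.denseRange_denseSeq (Metric.closedBall (0 : X) 1)
    obtain ⟨n, hn⟩ := hd.exists_dist_lt (⟨v, by simpa using hv⟩ : Metric.closedBall (0 : X) 1) hε
    refine ⟨n, ?_⟩
    rw [Subtype.dist_eq, dist_eq_norm] at hn
    exact hn.le

/-- The union of finitely many members of a family of weakly compact sets. -/
def unionWK {ι : Type} (K : ι → WKB X) (s : Finset ι) : WKB X :=
  ⟨⋃ i ∈ s, (K i).1, by
    refine iUnion₂_subset (fun i _ => (K i).2.1), by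
    rw [image_iUnion₂]
    exact s.isCompact_biUnion (fun i _ => (K i).2.2)⟩

theorem subset_unionWK {ι : Type} (K : ι → WKB X) (s : Finset ι) {i : ι} (hi : i ∈ s) :
    (K i).1 ⊆ (unionWK K s).1 := by
  show (K i).1 ⊆ ⋃ i ∈ s, (K i).1
  exact subset_biUnion_of_mem (u := fun i => (K i).1) (show i ∈ (s : Set ι) from hi)

/-- A family of weakly compact sets indexed by a set of size at most `#E'` which is cofinal for
every `ε` gives `AK(B_X) ⪯ [E']^{<ω}`. -/
theorem below_of_family {E' : Type}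
    (h : ∀ ε : ℝ, 0 < ε → ∃ (ι : Type) (K : ι → WKB X), #ι ≤ #E' ∧
      ∀ L : WKB X, ∃ i, leEps ε L (K i)) : AKBelow X (Finset E') := by
  classical
  intro ε hε
  obtain ⟨ι, K, hι, hK⟩ := h ε hε
  obtain ⟨g⟩ := hι
  choose c hc using hK
  refine ⟨fun L => {g (c L)}, fun s => ⟨unionWK K (s.preimage g g.injective.injOn), fun L hL => ?_⟩⟩
  have hL' : g (c L) ∈ s := hL (Finset.mem_singleton_self _)
  intro v hv
  obtain ⟨w, hw, hvw⟩ := hc L v hv
  exact ⟨w, subset_unionWK K _ (Finset.mem_preimage.2 hL') hw, hvw⟩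

/-- A countable family gives `AK(B_X) ⪯ ω`. -/
theorem below_of_countable
    (h : ∀ ε : ℝ, 0 < ε → ∃ K : ℕ → WKB X, ∀ L : WKB X, ∃ i, leEps ε L (K i)) :
    AKBelow X ℕ := by
  classical
  intro ε hε
  obtain ⟨K, hK⟩ := h ε hε
  choose c hc using hK
  refine ⟨c, fun n => ⟨unionWK K (Finset.range (n + 1)), fun L hL => ?_⟩⟩
  intro v hv
  obtain ⟨w, hw, hvw⟩ := hc L v hv
  have hL' : c L ≤ n := hL
  exact ⟨w, subset_unionWK K _ (Finset.mem_range.2 (by omega)) hw, hvw⟩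

/-- Chain of approximations `L ⊂_ε A ⊂_ε K`. -/
theorem leEps_of_chain {d : ℕ → X} {L K : WKB X} {A : Set ℕ} {ε : ℝ}
    (h1 : ∀ w ∈ L.1, ∃ i ∈ A, ‖w - d i‖ ≤ ε / 2) (h2 : ∀ i ∈ A, ∃ w ∈ K.1, ‖d i - w‖ ≤ ε / 2) :
    leEps ε L K := by
  intro v hv
  obtain ⟨i, hi, hvi⟩ := h1 v hv
  obtain ⟨w, hw, hiw⟩ := h2 i hi
  refine ⟨w, hw, ?_⟩
  calc ‖v - w‖ = ‖(v - d i) + (d i - w)‖ := by congr 1; abel
    _ ≤ ‖v - d i‖ + ‖d i - w‖ := norm_add_le _ _
    _ ≤ ε := by linarith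

end

/-- The structure theorem in ZFC. -/
theorem zfc_part (hR3 : StmtR3) (hR4 : StmtR4) (hR5 : StmtR5)
    (hR6 : StmtR6) (hR8 : StmtR8) (X : Type) [NormedAddCommGroup X] [NormedSpace ℝ X]
    [CompleteSpace X] [TopologicalSpace.SeparableSpace X] :
    AKAbove X (ℕ → ℕ) ∨ ∀ E' : Type, aleph 1 ≤ #E' → AKBelow X (Finset E') := by
  by_cases hA : AKAbove X (ℕ → ℕ)
  · exact Or.inl hA
  · right
    intro E' hE'
    obtain ⟨d, hd, hdense⟩ := exists_dense_seq X
    obtain ⟨E, G, hE, hG, hGW, hcov⟩ := hR6 X d hd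
    have h1 : ∀ (e : E) (j : ℕ), ∃ C : ℕ → Set ℕ, (∀ n, JJ d (1 / ((j : ℝ) + 1)) (C n)) ∧
        ∀ z, ∃ n, {i | G e z i = true} ⊆ C n := by
      intro e j
      rcases hR4 X d (1 / ((j : ℝ) + 1)) (G e) (hG e) (hGW e) with h | h
      · exact absurd (hR3 X d _ (by positivity) h) hA
      · exact h
    choose C hCJ hCc using h1
    apply below_of_family
    intro ε hε
    have h2 : ∀ e : E, ∃ K : ℕ → WKB X, ∀ A : Set ℕ, (∀ j, ∃ n, A ⊆ C e j n) →
        ∃ m, ∀ i ∈ A, ∃ w ∈ (K m).1, ‖d i - w‖ ≤ ε / 2 := by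
      intro e
      rcases hR5 X d hd (C e) (hCJ e) (ε / 2) (by positivity) with h | h
      · exact absurd h hA
      · exact h
    choose K hK using h2
    refine ⟨E × ℕ, fun p => K p.1 p.2, ?_, fun L => ?_⟩
    · rw [Cardinal.mk_prod, Cardinal.lift_uzero, Cardinal.lift_uzero, Cardinal.mk_nat]
      refine le_trans ?_ hE'
      calc #E * ℵ₀ ≤ aleph 1 * aleph 1 := mul_le_mul' hE (Cardinal.aleph0_le_aleph 1)
        _ = aleph 1 := Cardinal.mul_eq_self (Cardinal.aleph0_le_aleph 1)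
    · obtain ⟨A, hA1, hA2⟩ := hR8 X d hd hdense L (ε / 2) (by positivity)
      obtain ⟨e, z, hz⟩ := hcov A hA1
      obtain ⟨m, hm⟩ := hK e A (fun j => by
        obtain ⟨n, hn⟩ := hCc e j z
        exact ⟨n, by rw [hz]; exact hn⟩)
      exact ⟨(e, m), leEps_of_chain hA2 hm⟩

theorem det_part (hR3 : StmtR3) (hR5 : StmtR5) (hR7a : StmtR7a) (hR7b : StmtR7b)
    (hR8 : StmtR8) (hdet : ∀ A : Set (ℕ → ℕ), BoolAn A → Determined A)
    (X : Type) [NormedAddCommGroup X] [NormedSpace ℝ X]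
    [CompleteSpace X] [TopologicalSpace.SeparableSpace X] :
    AKBelow X ℕ ∨ AKAbove X (ℕ → ℕ) := by
  classical
  by_cases hA : AKAbove X (ℕ → ℕ)
  · exact Or.inr hA
  · left
    obtain ⟨d, hd, hdense⟩ := exists_dense_seq X
    have hWC : ∀ A B : Set ℕ, A ⊆ B → WC d B → WC d A := by
      rintro A B hAB ⟨K, hK⟩
      exact ⟨K, fun n hn => hK n (hAB hn)⟩
    have h1 : ∀ j : ℕ, ∃ C : ℕ → Set ℕ, (∀ n, JJ d (1 / ((j : ℝ) + 1)) (C n)) ∧
        ∀ A, WC d A → ∃ n, A ⊆ C n := by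
      intro j
      have hδ : (0 : ℝ) < 1 / ((j : ℝ) + 1) := by positivity
      rcases hR7a (JJ d (1 / ((j : ℝ) + 1))) (WC d) hWC (hdet _ (hR7b X d hd _ hδ)) with h | h
      · exact h
      · exfalso
        apply hA
        have hsel : ∀ S : Set ℕ, ∃ s : ℕ → ℕ, ¬ JJ d (1 / ((j : ℝ) + 1)) S →
            (∀ k, s k ∈ S) ∧ Sep (1 / ((j : ℝ) + 1)) (fun i => d (s i)) := by
          intro S
          by_cases hS : JJ d (1 / ((j : ℝ) + 1)) S
          · exact ⟨0, fun h => absurd hS h⟩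
          · obtain ⟨s, hs⟩ := not_not.1 hS
            exact ⟨s, fun _ => hs⟩
        choose sel hsel using hsel
        obtain ⟨a, ha1, ha2⟩ := h sel (fun S hS k => (hsel S hS).1 k)
        refine hR3 X d _ hδ ⟨a, fun t => ?_, ha2⟩
        obtain ⟨S, hS, hS2⟩ := ha1 t
        have := (hsel S hS).2
        simp only [hS2]
        exact this
    choose C hCJ hCc using h1
    apply below_of_countable
    intro ε hε
    rcases hR5 X d hd C hCJ (ε / 2) (by positivity) with h | ⟨K, hK⟩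
    · exact absurd h hA
    · refine ⟨K, fun L => ?_⟩
      obtain ⟨A, hA1, hA2⟩ := hR8 X d hd hdense L (ε / 2) (by positivity)
      obtain ⟨m, hm⟩ := hK A (fun j => hCc j A hA1)
      exact ⟨m, leEps_of_chain hA2 hm⟩

end Pool.Agent.Helper26.TK
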