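import Pool.Agent.Helper26.TK.Fin

/-!
The vectors `e t` form a 1-unconditional basis.
-/

namespace Pool.Agent.Helper26.TK

open Set Filter Topology MeasureTheory Cardinal

/-- The space has a 1-unconditional basis. -/
def UncBasis (X : Type) [NormedAddCommGroup X] [NormedSpace ℝ X] : Prop :=
  ∃ e : ℕ → X, (∀ n, e n ≠ 0) ∧ Dense (Submodule.span ℝ (Set.range e) : Set X) ∧
    ∀ (s : Finset ℕ) (a b : ℕ → ℝ), (∀ i ∈ s, |b i| ≤ |a i|) →
      ‖∑ i ∈ s, b i • e i‖ ≤ ‖∑ i ∈ s, a i • e i‖

section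

variable {Φ : Set (Node →₀ ℝ)} {X : Type} [NormedAddCommGroup X] [NormedSpace ℝ X]

theorem co_sum' (H : NS Φ X) (S : Finset Node) (z : Node → ℝ) (t : Node) [DecidableEq Node] :
    H.co t (∑ s ∈ S, z s • H.e s) = if t ∈ S then z t else 0 := by
  rw [map_sum]
  have : ∀ s ∈ S, H.co t (z s • H.e s) = if t = s then z s else 0 := by
    intro s _
    rw [map_smul, H.co_e, smul_eq_mul]
    split_ifs <;> simp
  rw [Finset.sum_congr rfl this, Finset.sum_ite_eq]

theorem norm_mono (hΦ : Good Φ) (H : NS Φ X) (S : Finset Node) (a b : Node → ℝ)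
    (hab : ∀ t ∈ S, |b t| ≤ |a t|) :
    ‖∑ t ∈ S, b t • H.e t‖ ≤ ‖∑ t ∈ S, a t • H.e t‖ := by
  classical
  refine H.norm_le _ _ (norm_nonneg _) (fun φ hφ => ?_)
  let sg : Node → ℝ := fun t => if 0 ≤ a t then 1 else -1
  have hsg : ∀ t, |sg t| = 1 := by
    intro t
    simp only [sg]
    split_ifs <;> simp
  have hsga : ∀ t, sg t * a t = |a t| := by
    intro t
    simp only [sg]
    split_ifs with h
    · rw [abs_of_nonneg h, one_mul]
    · rw [abs_of_neg (not_le.1 h)]; ring
  let χ : Node →₀ ℝ := Finsupp.onFinset φ.support (fun t => |φ t| * sg t) (by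
    intro t ht
    rw [Finsupp.mem_support_iff]
    intro h0
    apply ht
    simp [h0])
  have hχapp : ∀ t, χ t = |φ t| * sg t := fun t => rfl
  have hχ : χ ∈ Φ := by
    refine hΦ.dom φ hφ χ (fun t => Or.inr ?_)
    rw [hχapp, abs_mul, hsg, mul_one, abs_abs]
  have h1 := H.le_norm χ hχ (∑ t ∈ S, a t • H.e t)
  refine le_trans ?_ h1
  have hsup : χ.support = φ.support := by
    ext t
    rw [Finsupp.mem_support_iff, Finsupp.mem_support_iff, hχapp]
    constructor
    · intro h h0
      apply h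
      simp [h0]
    · intro h h0
      rcases mul_eq_zero.1 h0 with h' | h'
      · exact h (abs_eq_zero.1 h')
      · have := hsg t
        rw [h'] at this
        simp at this
  rw [hsup]
  have h2 : ∑ t ∈ φ.support, χ t * H.co t (∑ t ∈ S, a t • H.e t) =
      ∑ t ∈ φ.support, (if t ∈ S then |φ t| * |a t| else 0) := by
    refine Finset.sum_congr rfl (fun t _ => ?_)
    rw [co_sum', hχapp]
    split_ifs with h
    · rw [mul_assoc, hsga]
    · rw [mul_zero]
  rw [h2]
  have h3 : 0 ≤ ∑ t ∈ φ.support, (if t ∈ S then |φ t| * |a t| else 0) := by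
    refine Finset.sum_nonneg (fun t _ => ?_)
    split_ifs
    · positivity
    · exact le_rfl
  rw [abs_of_nonneg h3]
  refine (Finset.abs_sum_le_sum_abs _ _).trans (Finset.sum_le_sum (fun t _ => ?_))
  rw [co_sum']
  split_ifs with h
  · rw [abs_mul]
    exact mul_le_mul_of_nonneg_left (hab t h) (abs_nonneg _)
  · simp

theorem uncBasis (hΦ : Good Φ) (H : NS Φ X) : UncBasis X := by
  classical
  obtain ⟨E⟩ : Nonempty (ℕ ≃ Node) := nonempty_equiv_of_countable
  refine ⟨fun n => H.e (E n), fun n h => ?_, ?_, fun s a b hab => ?_⟩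
  · have h1 := H.co_e (E n) (E n)
    have h' : H.e (E n) = 0 := h
    rw [h', map_zero, if_pos rfl] at h1
    exact zero_ne_one h1
  · rw [Metric.dense_iff]
    intro v r hr
    obtain ⟨S, hS⟩ := H.dense v (r / 2) (by positivity)
    refine ⟨∑ t ∈ S, H.co t v • H.e t, ?_, ?_⟩
    · rw [mem_ball_iff_norm']
      exact lt_of_le_of_lt hS (by linarith)
    · refine Submodule.sum_mem _ (fun t _ => Submodule.smul_mem _ _ (Submodule.subset_span ?_))
      exact ⟨E.symm t, by simp⟩
  · have h1 : ∀ c : ℕ → ℝ, ∑ i ∈ s, c i • H.e (E i) =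
        ∑ t ∈ s.map E.toEmbedding, c (E.symm t) • H.e t := by
      intro c
      rw [Finset.sum_map]
      simp
    rw [h1 b, h1 a]
    refine norm_mono hΦ H _ _ _ (fun t ht => ?_)
    obtain ⟨i, hi, rfl⟩ := Finset.mem_map.1 ht
    simpa using hab i hi

end

end Pool.Agent.Helper26.TK
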